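import Pool.Agent.Run7.h782.GD.Defs

/-!
Basic facts on coefficients: lengths, the projection, the nonlinear term.
-/

set_option autoImplicit false

open MeasureTheory Set Filter Topology
open scoped ContDiff ComplexConjugate

namespace Pool.Agent.Run7.h782.GD

open H459R3.NS

/-! ### Lengths -/

theorem sq_nonneg' (k : K3) : 0 ≤ sq k := Finset.sum_nonneg fun _ _ => sq_nonneg _

theorem len_nonneg (k : K3) : 0 ≤ len k := Real.sqrt_nonneg _

theorem len_sq (k : K3) : len k ^ 2 = sq k := Real.sq_sqrt (sq_nonneg' k)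

theorem sq_neg (k : K3) : sq (-k) = sq k := by simp [sq]

theorem len_neg (k : K3) : len (-k) = len k := by rw [len, len, sq_neg]

@[simp] theorem sq_zero' : sq 0 = 0 := by simp [sq]

@[simp] theorem len_zero : len 0 = 0 := by simp [len]

theorem one_le_sq {k : K3} (hk : k ≠ 0) : 1 ≤ sq k := by
  obtain ⟨j, hj⟩ := Function.ne_iff.mp hk
  have h1 : (1 : ℝ) ≤ (k j : ℝ) ^ 2 := by
    have h2 : (1 : ℤ) ≤ (k j) ^ 2 := by
      have : 0 < (k j) ^ 2 := by
        have : k j ≠ 0 := by simpa using hj
        positivity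
      omega
    exact_mod_cast h2
  exact h1.trans (Finset.single_le_sum (f := fun j => (k j : ℝ) ^ 2) (fun _ _ => sq_nonneg _)
    (Finset.mem_univ j))

theorem one_le_len {k : K3} (hk : k ≠ 0) : 1 ≤ len k := by
  rw [len]
  exact Real.one_le_sqrt.mpr (one_le_sq hk)

theorem len_pos {k : K3} (hk : k ≠ 0) : 0 < len k := zero_lt_one.trans_le (one_le_len hk)

theorem sq_pos' {k : K3} (hk : k ≠ 0) : 0 < sq k := zero_lt_one.trans_le (one_le_sq hk)

theorem abs_le_len (k : K3) (j : Fin 3) : |(k j : ℝ)| ≤ len k := by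
  rw [len]
  refine Real.abs_le_sqrt ?_
  exact Finset.single_le_sum (f := fun j => (k j : ℝ) ^ 2) (fun _ _ => sq_nonneg _)
    (Finset.mem_univ j)

theorem dot_le_len (k l : K3) : ∑ j, (k j : ℝ) * (l j : ℝ) ≤ len k * len l := by
  have h := Finset.sum_mul_sq_le_sq_mul_sq Finset.univ (fun j => (k j : ℝ)) (fun j => (l j : ℝ))
  have h2 : (∑ j, (k j : ℝ) * (l j : ℝ)) ^ 2 ≤ (len k * len l) ^ 2 := by
    rw [mul_pow, len_sq, len_sq]
    exact h
  exact (abs_le_of_sq_le_sq' h2 (mul_nonneg (len_nonneg _) (len_nonneg _))).2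

theorem len_add_le (k l : K3) : len (k + l) ≤ len k + len l := by
  have h : len (k + l) ^ 2 ≤ (len k + len l) ^ 2 := by
    have h1 : len (k + l) ^ 2 = len k ^ 2 + 2 * (∑ j, (k j : ℝ) * (l j : ℝ)) + len l ^ 2 := by
      rw [len_sq, len_sq, len_sq]
      simp only [sq, Finset.mul_sum, ← Finset.sum_add_distrib]
      refine Finset.sum_congr rfl fun j _ => ?_
      push_cast [Pi.add_apply]
      ring
    have h2 := dot_le_len k l
    rw [h1]
    nlinarith
  exact (abs_le_of_sq_le_sq' h (add_nonneg (len_nonneg _) (len_nonneg _))).2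

theorem len_le_add (k p : K3) : len k ≤ len p + len (k - p) := by
  have := len_add_le p (k - p)
  rwa [add_sub_cancel] at this

theorem exp_len_le {μ : ℝ} (hμ : 0 ≤ μ) (k p : K3) :
    Real.exp (μ * len k) ≤ Real.exp (μ * len p) * Real.exp (μ * len (k - p)) := by
  rw [← Real.exp_add, ← mul_add]
  exact Real.exp_le_exp.mpr (mul_le_mul_of_nonneg_left (len_le_add k p) hμ)

/-! ### The projection -/

theorem kd_add (k : K3) (v w : C3) : kd k (v + w) = kd k v + kd k w := by
  simp [kd, mul_add, Finset.sum_add_distrib]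

theorem kd_smul (k : K3) (c : ℂ) (v : C3) : kd k (c • v) = c * kd k v := by
  simp only [kd, Pi.smul_apply, smul_eq_mul, Finset.mul_sum]
  exact Finset.sum_congr rfl fun _ _ => by ring

theorem kd_zero_right (k : K3) : kd k 0 = 0 := by simp [kd]

theorem kd_zero_left (v : C3) : kd 0 v = 0 := by simp [kd]

theorem kd_neg_left (k : K3) (v : C3) : kd (-k) v = -kd k v := by
  simp [kd]

theorem kd_add_left (k l : K3) (v : C3) : kd (k + l) v = kd k v + kd l v := by
  simp [kd, add_mul, Finset.sum_add_distrib]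

theorem kd_sub_left (k l : K3) (v : C3) : kd (k - l) v = kd k v - kd l v := by
  rw [sub_eq_add_neg, kd_add_left, kd_neg_left, ← sub_eq_add_neg]

theorem kd_conj (k : K3) (v : C3) : kd k (fun i => conj (v i)) = conj (kd k v) := by
  simp [kd, map_sum]

/-- The projection as a linear map. -/
noncomputable def prjL (k : K3) : C3 →ₗ[ℂ] C3 where
  toFun := prj k
  map_add' v w := by
    funext i
    simp only [prj, kd_add, Pi.add_apply]
    ring
  map_smul' c v := by
    funext i
    simp only [prj, kd_smul, Pi.smul_apply, smul_eq_mul, RingHom.id_apply]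
    ring

theorem prjL_apply (k : K3) (v : C3) : prjL k v = prj k v := rfl

/-- The projection as a continuous linear map. -/
noncomputable def prjC (k : K3) : C3 →L[ℂ] C3 := LinearMap.toContinuousLinearMap (prjL k)

theorem prjC_apply (k : K3) (v : C3) : prjC k v = prj k v := rfl

theorem prj_add (k : K3) (v w : C3) : prj k (v + w) = prj k v + prj k w := (prjL k).map_add v w

theorem prj_smul (k : K3) (c : ℂ) (v : C3) : prj k (c • v) = c • prj k v := (prjL k).map_smul c v

theorem prj_zero (k : K3) : prj k 0 = 0 := (prjL k).map_zero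

theorem prj_sub (k : K3) (v w : C3) : prj k (v - w) = prj k v - prj k w := (prjL k).map_sub v w

theorem norm_kd_le (k : K3) (v : C3) : ‖kd k v‖ ≤ 3 * len k * ‖v‖ := by
  refine (norm_sum_le _ _).trans ?_
  have : ∀ j ∈ Finset.univ, ‖(k j : ℂ) * v j‖ ≤ len k * ‖v‖ := by
    intro j _
    rw [norm_mul]
    refine mul_le_mul ?_ (norm_le_pi_norm v j) (norm_nonneg _) (len_nonneg _)
    have : ‖(k j : ℂ)‖ = |(k j : ℝ)| := by
      rw [← Complex.ofReal_intCast, Complex.norm_real, Real.norm_eq_abs]
    rw [this]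
    exact abs_le_len k j
  refine (Finset.sum_le_sum this).trans (le_of_eq ?_)
  simp
  ring

theorem norm_prj_le (k : K3) (v : C3) : ‖prj k v‖ ≤ 4 * ‖v‖ := by
  refine (pi_norm_le_iff_of_nonneg (by positivity)).mpr fun i => ?_
  by_cases hk : k = 0
  · subst hk
    simp only [prj, Pi.zero_apply, Int.cast_zero, zero_mul, sub_zero]
    exact (norm_le_pi_norm v i).trans (by linarith [norm_nonneg v])
  have hq := sq_pos' hk
  have h1 : ‖(k i : ℂ) * (kd k v / (sq k : ℂ))‖ ≤ 3 * ‖v‖ := by
    rw [norm_mul, norm_div, Complex.norm_real, Real.norm_eq_abs, abs_of_pos hq]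
    have e : ‖(k i : ℂ)‖ = |(k i : ℝ)| := by
      rw [← Complex.ofReal_intCast, Complex.norm_real, Real.norm_eq_abs]
    rw [e]
    calc |(k i : ℝ)| * (‖kd k v‖ / sq k) ≤ len k * (3 * len k * ‖v‖ / sq k) := by
          refine mul_le_mul (abs_le_len k i) ?_ (by positivity) (len_nonneg _)
          exact div_le_div_of_nonneg_right (norm_kd_le k v) hq.le
      _ = 3 * ‖v‖ := by
          rw [← len_sq]
          have := (len_pos hk).ne'
          field_simp
  calc ‖prj k v i‖ ≤ ‖v i‖ + ‖(k i : ℂ) * (kd k v / (sq k : ℂ))‖ := norm_sub_le _ _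
    _ ≤ ‖v‖ + 3 * ‖v‖ := add_le_add (norm_le_pi_norm v i) h1
    _ = 4 * ‖v‖ := by ring

theorem kd_prj (k : K3) (v : C3) : kd k (prj k v) = 0 := by
  by_cases hk : k = 0
  · subst hk; exact kd_zero_left _
  have hq : (sq k : ℂ) ≠ 0 := by exact_mod_cast (sq_pos' hk).ne'
  have h1 : kd k (prj k v) = kd k v - (∑ j, (k j : ℂ) * (k j : ℂ)) * (kd k v / (sq k : ℂ)) := by
    simp only [kd, prj, mul_sub, Finset.sum_sub_distrib, Finset.sum_mul]
    congr 1
    exact Finset.sum_congr rfl fun _ _ => by ring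
  have h2 : (∑ j, (k j : ℂ) * (k j : ℂ)) = (sq k : ℂ) := by
    simp only [sq]
    push_cast
    exact Finset.sum_congr rfl fun _ _ => by ring
  rw [h1, h2, mul_div_cancel₀ _ hq, sub_self]

theorem prj_of_kd_eq_zero {k : K3} {v : C3} (h : kd k v = 0) : prj k v = v := by
  funext i
  simp [prj, h]

theorem prj_neg_conj (k : K3) (v : C3) :
    prj (-k) (fun i => conj (v i)) = fun i => conj (prj k v i) := by
  funext i
  simp only [prj, kd_neg_left, kd_conj, sq_neg, Pi.neg_apply, Int.cast_neg, map_sub, map_mul,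
    map_div₀, map_neg, Complex.conj_ofReal]
  have : conj ((k i : ℂ)) = (k i : ℂ) := by
    rw [← Complex.ofReal_intCast, Complex.conj_ofReal]
  rw [this]
  ring

/-! ### The nonlinear term -/

/-- Absolutely summable families. -/
def L1 (a : Cf) : Prop := Summable fun k => ‖a k‖

theorem L1.of_supp {a : Cf} {B : Finset K3} (h : ∀ k ∉ B, a k = 0) : L1 a :=
  summable_of_ne_finset_zero (s := B) fun k hk => by rw [h k hk, norm_zero]

theorem L1.add {a b : Cf} (ha : L1 a) (hb : L1 b) : L1 (a + b) :=
  Summable.of_nonneg_of_le (fun _ => norm_nonneg _) (fun k => norm_add_le (a k) (b k))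
    (Summable.add ha hb)

theorem L1.smul {a : Cf} (ha : L1 a) (c : ℂ) : L1 (c • a) := by
  have : Summable fun k => ‖c‖ * ‖a k‖ := Summable.mul_left _ ha
  refine this.congr fun k => ?_
  rw [Pi.smul_apply, norm_smul]

theorem L1.neg {a : Cf} (ha : L1 a) : L1 (-a) := by
  refine Summable.congr ha fun k => ?_
  rw [Pi.neg_apply, norm_neg]

theorem L1.sub {a b : Cf} (ha : L1 a) (hb : L1 b) : L1 (a - b) := by
  rw [sub_eq_add_neg]
  exact ha.add hb.neg

theorem L1.zero : L1 0 := by
  have : (fun k : K3 => ‖(0 : Cf) k‖) = fun _ => 0 := by funext k; simp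
  rw [L1, this]
  exact summable_zero

theorem L1.sum {ι : Type*} {s : Finset ι} {a : ι → Cf} (ha : ∀ i ∈ s, L1 (a i)) :
    L1 (∑ i ∈ s, a i) := by
  classical
  induction s using Finset.induction_on with
  | empty => simpa using L1.zero
  | insert i s hi ih =>
    rw [Finset.sum_insert hi]
    exact (ha i (Finset.mem_insert_self _ _)).add (ih fun j hj => ha j (Finset.mem_insert_of_mem hj))

theorem norm_term_le (k : K3) (v w : C3) : ‖kd k v • w‖ ≤ 3 * len k * (‖v‖ * ‖w‖) := by
  rw [norm_smul]
  calc ‖kd k v‖ * ‖w‖ ≤ 3 * len k * ‖v‖ * ‖w‖ :=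
        mul_le_mul_of_nonneg_right (norm_kd_le k v) (norm_nonneg _)
    _ = _ := by ring

theorem summable_conv {f g : K3 → ℝ} (hf0 : ∀ k, 0 ≤ f k) (hg0 : ∀ k, 0 ≤ g k) (hf : Summable f)
    (hg : Summable g) (k : K3) : Summable fun p => f p * g (k - p) := by
  refine Summable.of_nonneg_of_le (fun p => mul_nonneg (hf0 p) (hg0 _)) (fun p => ?_)
    (hf.mul_right (∑' q, g q))
  exact mul_le_mul_of_nonneg_left (hg.le_tsum (k - p) fun q _ => hg0 q) (hf0 p)

theorem summable_nl {a b : Cf} (ha : L1 a) (hb : L1 b) (k l : K3) :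
    Summable fun p => kd l (a p) • b (k - p) := by
  refine Summable.of_norm_bounded
    (((summable_conv (fun _ => norm_nonneg _) (fun _ => norm_nonneg _) ha hb k).mul_left
      (3 * len l))) fun p => ?_
  exact norm_term_le l (a p) (b (k - p))

theorem norm_nl_le {a b : Cf} (ha : L1 a) (hb : L1 b) (k : K3) :
    ‖nl a b k‖ ≤ 24 * Real.pi * len k * ∑' p, ‖a p‖ * ‖b (k - p)‖ := by
  have hc := summable_conv (fun _ => norm_nonneg _) (fun _ => norm_nonneg _) ha hb k
  have h1 : ‖∑' p, kd k (a p) • b (k - p)‖ ≤ 3 * len k * ∑' p, ‖a p‖ * ‖b (k - p)‖ := by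
    rw [← tsum_mul_left]
    refine tsum_of_norm_bounded ((hc.mul_left (3 * len k)).hasSum) fun p => ?_
    exact norm_term_le k (a p) (b (k - p))
  rw [nl, norm_smul]
  have h2 : ‖(2 * Real.pi * Complex.I : ℂ)‖ = 2 * Real.pi := by
    rw [norm_mul, norm_mul, Complex.norm_I, Complex.norm_real, Real.norm_eq_abs,
      abs_of_pos Real.pi_pos]
    norm_num
  rw [h2]
  have h3 := (norm_prj_le k (∑' p, kd k (a p) • b (k - p))).trans
    (mul_le_mul_of_nonneg_left h1 (by norm_num : (0 : ℝ) ≤ 4))
  calc 2 * Real.pi * ‖prj k (∑' p, kd k (a p) • b (k - p))‖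
      ≤ 2 * Real.pi * (4 * (3 * len k * ∑' p, ‖a p‖ * ‖b (k - p)‖)) :=
        mul_le_mul_of_nonneg_left h3 (by positivity)
    _ = _ := by ring

theorem nl_zero_mode (a b : Cf) : nl a b 0 = 0 := by
  have : (∑' p : K3, kd 0 (a p) • b (0 - p)) = 0 := by
    simp only [kd_zero_left, zero_smul, tsum_zero]
  rw [nl, this, prj_zero, smul_zero]

theorem nl_add_left {a a' b : Cf} (ha : L1 a) (ha' : L1 a') (hb : L1 b) :
    nl (a + a') b = nl a b + nl a' b := by
  funext k
  rw [Pi.add_apply, nl, nl, nl, ← smul_add, ← prj_add,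
    ← (summable_nl ha hb k k).tsum_add (summable_nl ha' hb k k)]
  congr 2
  exact tsum_congr fun p => by rw [Pi.add_apply, kd_add, add_smul]

theorem nl_add_right {a b b' : Cf} (ha : L1 a) (hb : L1 b) (hb' : L1 b') :
    nl a (b + b') = nl a b + nl a b' := by
  funext k
  rw [Pi.add_apply, nl, nl, nl, ← smul_add, ← prj_add,
    ← (summable_nl ha hb k k).tsum_add (summable_nl ha hb' k k)]
  congr 2
  exact tsum_congr fun p => by rw [Pi.add_apply, smul_add]

theorem nl_smul_left (c : ℂ) (a b : Cf) : nl (c • a) b = c • nl a b := by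
  funext k
  have h : (∑' p : K3, kd k ((c • a) p) • b (k - p)) = c • ∑' p : K3, kd k (a p) • b (k - p) := by
    rw [← tsum_const_smul'']
    exact tsum_congr fun p => by rw [Pi.smul_apply, kd_smul, mul_smul]
  rw [Pi.smul_apply, nl, nl, h, prj_smul, smul_comm c]

theorem nl_smul_right (c : ℂ) (a b : Cf) : nl a (c • b) = c • nl a b := by
  funext k
  have h : (∑' p : K3, kd k (a p) • (c • b) (k - p)) = c • ∑' p : K3, kd k (a p) • b (k - p) := by
    rw [← tsum_const_smul'']
    exact tsum_congr fun p => by rw [Pi.smul_apply, smul_comm]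
  rw [Pi.smul_apply, nl, nl, h, prj_smul, smul_comm c]

theorem nl_zero_left (b : Cf) : nl 0 b = 0 := by
  have := nl_smul_left 0 0 b
  simpa using this

theorem nl_zero_right (a : Cf) : nl a 0 = 0 := by
  have := nl_smul_right 0 a 0
  simpa using this

theorem nl_neg_left (a b : Cf) : nl (-a) b = -nl a b := by
  have := nl_smul_left (-1) a b
  simpa using this

theorem nl_neg_right (a b : Cf) : nl a (-b) = -nl a b := by
  have := nl_smul_right (-1) a b
  simpa using this

theorem nl_sub_left {a a' b : Cf} (ha : L1 a) (ha' : L1 a') (hb : L1 b) :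
    nl (a - a') b = nl a b - nl a' b := by
  rw [sub_eq_add_neg, nl_add_left ha ha'.neg hb, nl_neg_left, ← sub_eq_add_neg]

theorem nl_sub_right {a b b' : Cf} (ha : L1 a) (hb : L1 b) (hb' : L1 b') :
    nl a (b - b') = nl a b - nl a b' := by
  rw [sub_eq_add_neg, nl_add_right ha hb hb'.neg, nl_neg_right, ← sub_eq_add_neg]

theorem nl_sum_left {ι : Type*} {s : Finset ι} {a : ι → Cf} {b : Cf} (ha : ∀ i ∈ s, L1 (a i))
    (hb : L1 b) : nl (∑ i ∈ s, a i) b = ∑ i ∈ s, nl (a i) b := by
  classical
  induction s using Finset.induction_on with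
  | empty => simp [nl_zero_left]
  | insert i s hi ih =>
    rw [Finset.sum_insert hi, Finset.sum_insert hi,
      nl_add_left (ha i (Finset.mem_insert_self _ _))
        (L1.sum fun j hj => ha j (Finset.mem_insert_of_mem hj)) hb,
      ih fun j hj => ha j (Finset.mem_insert_of_mem hj)]

theorem nl_sum_right {ι : Type*} {s : Finset ι} {a : Cf} {b : ι → Cf} (ha : L1 a)
    (hb : ∀ i ∈ s, L1 (b i)) : nl a (∑ i ∈ s, b i) = ∑ i ∈ s, nl a (b i) := by
  classical
  induction s using Finset.induction_on with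
  | empty => simp [nl_zero_right]
  | insert i s hi ih =>
    rw [Finset.sum_insert hi, Finset.sum_insert hi,
      nl_add_right ha (hb i (Finset.mem_insert_self _ _))
        (L1.sum fun j hj => hb j (Finset.mem_insert_of_mem hj)),
      ih fun j hj => hb j (Finset.mem_insert_of_mem hj)]

/-- The nonlinear term is divergence free. -/
theorem dv_nl (a b : Cf) : Dv (nl a b) := fun k => by
  rw [nl, kd_smul, kd_prj, mul_zero]

/-- The nonlinear term of real fields is real. -/
theorem herm_nl {a b : Cf} (ha : Herm a) (hb : Herm b) : Herm (nl a b) := by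
  intro k i
  have e : (∑' p : K3, kd (-k) (a p) • b (-k - p))
      = -(fun i => conj ((∑' p : K3, kd k (a p) • b (k - p)) i)) := by
    rw [← (Equiv.neg K3).tsum_eq]
    have h1 : ∀ p : K3, kd (-k) (a ((Equiv.neg K3) p)) • b (-k - (Equiv.neg K3) p)
        = -(fun i => conj ((kd k (a p) • b (k - p)) i)) := by
      intro p
      funext i
      have e1 : a (-p) = fun i => conj (a p i) := funext fun i => ha p i
      have e2 : b (-k - -p) = fun i => conj (b (k - p) i) := by
        have : -k - -p = -(k - p) := by abel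
        rw [this]
        exact funext fun i => hb (k - p) i
      simp only [Equiv.neg_apply, Pi.smul_apply, Pi.neg_apply, smul_eq_mul, e1, e2, kd_neg_left,
        kd_conj, map_mul, map_neg]
      ring
    simp_rw [h1]
    rw [tsum_neg]
    congr 1
    have h2 : ∀ f : K3 → C3, (∑' p, (fun i => conj (f p i)) : C3)
        = fun i => conj ((∑' p, f p) i) := by
      intro f
      let L : C3 ≃L[ℝ] C3 := ContinuousLinearEquiv.piCongrRight fun _ => Complex.conjCLE
      have := L.map_tsum (f := f) (L := SummationFilter.unconditional K3)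
      have h3 : ∀ v : C3, L v = fun i => conj (v i) := fun v => rfl
      rw [h3] at this
      rw [this]
      exact tsum_congr fun p => (h3 (f p)).symm
    exact h2 _
  have e2 : nl a b (-k) = fun i => conj (nl a b k i) := by
    funext i
    rw [nl, e]
    have : prj (-k) (-(fun i => conj ((∑' p : K3, kd k (a p) • b (k - p)) i)))
        = -(fun i => conj (prj k (∑' p : K3, kd k (a p) • b (k - p)) i)) := by
      rw [← prj_neg_conj]
      exact (prjL (-k)).map_neg _
    rw [this, nl]
    simp only [Pi.smul_apply, Pi.neg_apply, smul_eq_mul, map_mul, Complex.conj_I,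
      Complex.conj_ofReal, map_ofNat]
    ring
  rw [e2]

/-- The family with one coefficient `z` at `k`. -/
def sg (k : K3) (z : C3) : Cf := fun l => if l = k then z else 0

theorem sg_same (k : K3) (z : C3) : sg k z k = z := if_pos rfl

theorem sg_ne {k l : K3} (h : l ≠ k) (z : C3) : sg k z l = 0 := if_neg h

theorem sg_L1 (k : K3) (z : C3) : L1 (sg k z) :=
  L1.of_supp (B := {k}) fun l hl => sg_ne (by simpa using hl) z

theorem nl_sg (p q : K3) (z y : C3) :
    nl (sg p z) (sg q y) = sg (p + q)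
      ((2 * Real.pi * Complex.I : ℂ) • prj (p + q) (kd (p + q) z • y)) := by
  funext k
  have h : (∑' r : K3, kd k (sg p z r) • sg q y (k - r)) = kd k z • sg q y (k - p) := by
    rw [tsum_eq_single p]
    · rw [sg_same]
    · intro r hr
      rw [sg_ne hr, kd_zero_right, zero_smul]
  rw [nl, h]
  by_cases hk : k = p + q
  · subst hk
    rw [sg_same, add_sub_cancel_left, sg_same]
  · rw [sg_ne hk, sg_ne (fun h' => hk (by rw [← h', add_sub_cancel])), smul_zero, prj_zero,
      smul_zero]

/-- The critical estimate with exponential weights. -/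
theorem sum_nl_le {a b : Cf} {μ : ℝ} (hμ : 0 ≤ μ)
    (ha : Summable fun k => Real.exp (μ * len k) * ‖a k‖)
    (hb : Summable fun k => Real.exp (μ * len k) * ‖b k‖) (A : Finset K3) :
    ∑ k ∈ A, Real.exp (μ * len k) * ‖nl a b k‖ / len k
      ≤ 24 * Real.pi * (∑' k, Real.exp (μ * len k) * ‖a k‖) *
        ∑' k, Real.exp (μ * len k) * ‖b k‖ := by
  set f : K3 → ℝ := fun k => Real.exp (μ * len k) * ‖a k‖ with hf
  set g : K3 → ℝ := fun k => Real.exp (μ * len k) * ‖b k‖ with hg
  have hf0 : ∀ k, 0 ≤ f k := fun k => by positivity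
  have hg0 : ∀ k, 0 ≤ g k := fun k => by positivity
  have one_le : ∀ k : K3, 1 ≤ Real.exp (μ * len k) := fun k =>
    Real.one_le_exp (mul_nonneg hμ (len_nonneg k))
  have ha1 : L1 a := Summable.of_nonneg_of_le (fun _ => norm_nonneg _)
    (fun k => le_mul_of_one_le_left (norm_nonneg _) (one_le k)) ha
  have hb1 : L1 b := Summable.of_nonneg_of_le (fun _ => norm_nonneg _)
    (fun k => le_mul_of_one_le_left (norm_nonneg _) (one_le k)) hb
  have key : ∀ k, Real.exp (μ * len k) * ‖nl a b k‖ / len k
      ≤ 24 * Real.pi * ∑' p, f p * g (k - p) := by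
    intro k
    have hc := summable_conv hf0 hg0 ha hb k
    have hT : 0 ≤ ∑' p, f p * g (k - p) := tsum_nonneg fun p => mul_nonneg (hf0 p) (hg0 _)
    by_cases hk : k = 0
    · subst hk
      rw [nl_zero_mode, norm_zero, mul_zero, zero_div]
      positivity
    have hl := len_pos hk
    rw [div_le_iff₀ hl]
    have h1 := norm_nl_le ha1 hb1 k
    have h2 : Real.exp (μ * len k) * ∑' p, ‖a p‖ * ‖b (k - p)‖ ≤ ∑' p, f p * g (k - p) := by
      rw [← tsum_mul_left]
      refine Summable.tsum_le_tsum (fun p => ?_)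
        ((summable_conv (fun _ => norm_nonneg _) (fun _ => norm_nonneg _) ha1 hb1 k).mul_left _) hc
      have := exp_len_le hμ k p
      calc Real.exp (μ * len k) * (‖a p‖ * ‖b (k - p)‖)
          ≤ (Real.exp (μ * len p) * Real.exp (μ * len (k - p))) * (‖a p‖ * ‖b (k - p)‖) :=
            mul_le_mul_of_nonneg_right this (by positivity)
        _ = f p * g (k - p) := by simp only [hf, hg]; ring
    calc Real.exp (μ * len k) * ‖nl a b k‖
        ≤ Real.exp (μ * len k) * (24 * Real.pi * len k * ∑' p, ‖a p‖ * ‖b (k - p)‖) :=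
          mul_le_mul_of_nonneg_left h1 (Real.exp_pos _).le
      _ = 24 * Real.pi * len k * (Real.exp (μ * len k) * ∑' p, ‖a p‖ * ‖b (k - p)‖) := by ring
      _ ≤ 24 * Real.pi * len k * ∑' p, f p * g (k - p) :=
          mul_le_mul_of_nonneg_left h2 (by positivity)
      _ = _ := by ring
  calc ∑ k ∈ A, Real.exp (μ * len k) * ‖nl a b k‖ / len k
      ≤ ∑ k ∈ A, 24 * Real.pi * ∑' p, f p * g (k - p) := Finset.sum_le_sum fun k _ => key k
    _ = 24 * Real.pi * ∑' p, f p * ∑ k ∈ A, g (k - p) := by
        rw [← Finset.mul_sum, ← Summable.tsum_finsetSum fun k _ => summable_conv hf0 hg0 ha hb k]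
        congr 1
        exact tsum_congr fun p => (Finset.mul_sum _ _ _).symm
    _ ≤ 24 * Real.pi * ∑' p, f p * ∑' q, g q := by
        have hin : ∀ p : K3, ∑ k ∈ A, g (k - p) ≤ ∑' q, g q := by
          intro p
          have e := Finset.sum_map A (Equiv.subRight p).toEmbedding g
          simp only [Equiv.coe_toEmbedding, Equiv.subRight_apply] at e
          rw [← e]
          exact hb.sum_le_tsum _ fun q _ => hg0 q
        refine mul_le_mul_of_nonneg_left ?_ (by positivity)
        refine Summable.tsum_le_tsum (fun p => mul_le_mul_of_nonneg_left (hin p) (hf0 p)) ?_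
          (ha.mul_right _)
        refine Summable.of_nonneg_of_le (fun p => mul_nonneg (hf0 p)
          (Finset.sum_nonneg fun k _ => hg0 _)) (fun p => mul_le_mul_of_nonneg_left (hin p) (hf0 p))
          (ha.mul_right _)
    _ = _ := by rw [tsum_mul_right]; ring

end Pool.Agent.Run7.h782.GD
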