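import Pool.Agent.Run7.h782.GD.Gal4
import Pool.Agent.H772R2.NSR.Weak

/-!
The limit of the Galerkin approximations: preliminaries.
-/

set_option autoImplicit false

open MeasureTheory Set Filter Topology
open scoped ContDiff ComplexConjugate NNReal

namespace Pool.Agent.Run7.h782.GD

open H459R3.NS

/-- The bilinear estimate in absolutely summable families. -/
theorem norm_nl_le_N {a b : Cf} (ha : L1 a) (hb : L1 b) (k : K3) :
    ‖nl a b k‖ ≤ 24 * Real.pi * len k * ((∑' p, ‖a p‖) * ∑' p, ‖b p‖) := by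
  refine (norm_nl_le ha hb k).trans ?_
  refine mul_le_mul_of_nonneg_left ?_ (by have := len_nonneg k; positivity)
  rw [← tsum_mul_right]
  refine Summable.tsum_le_tsum (fun p => ?_)
    (summable_conv (fun _ => norm_nonneg _) (fun _ => norm_nonneg _) ha hb k) (ha.mul_right _)
  exact mul_le_mul_of_nonneg_left (hb.le_tsum (k - p) fun q _ => norm_nonneg _) (norm_nonneg _)

/-- Frequencies as triples. -/
def e3 : K3 ≃ ℤ × ℤ × ℤ where
  toFun k := (k 0, k 1, k 2)
  invFun p := ![p.1, p.2.1, p.2.2]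
  left_inv k := by funext i; fin_cases i <;> rfl
  right_inv p := rfl

/-- Summability of `e^{-μ|k|}`. -/
theorem summable_exp_len {μ : ℝ} (hμ : 0 < μ) :
    Summable fun k : K3 => Real.exp (-(μ * len k)) := by
  -- compare with the product of the one dimensional sums
  have h1 : Summable fun n : ℤ => Real.exp (-(μ / 3 * |(n : ℝ)|)) := by
    have hr : Real.exp (-(μ / 3)) < 1 := by
      rw [Real.exp_lt_one_iff]
      linarith
    have h2 : Summable fun n : ℕ => Real.exp (-(μ / 3)) ^ n :=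
      summable_geometric_of_lt_one (Real.exp_pos _).le hr
    have e : ∀ n : ℕ, Real.exp (-(μ / 3)) ^ n = Real.exp (-(μ / 3 * |((n : ℤ) : ℝ)|)) := by
      intro n
      rw [← Real.exp_nat_mul]
      congr 1
      simp
      ring
    refine Summable.of_nat_of_neg (h2.congr e) (h2.congr fun n => ?_)
    rw [e n]
    simp
  have h2 := h1.mul_of_nonneg (h1.mul_of_nonneg h1 (fun n => (Real.exp_pos _).le)
    (fun n => (Real.exp_pos _).le)) (fun n => (Real.exp_pos _).le) (fun p => by positivity)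
  have h3 := (e3.summable_iff (f := fun p : ℤ × ℤ × ℤ => Real.exp (-(μ / 3 * |(p.1 : ℝ)|)) *
    (Real.exp (-(μ / 3 * |(p.2.1 : ℝ)|)) * Real.exp (-(μ / 3 * |(p.2.2 : ℝ)|))))).2 h2
  refine Summable.of_nonneg_of_le (fun k => (Real.exp_pos _).le) (fun k => ?_) h3
  have e5 : ((fun p : ℤ × ℤ × ℤ => Real.exp (-(μ / 3 * |(p.1 : ℝ)|)) *
    (Real.exp (-(μ / 3 * |(p.2.1 : ℝ)|)) * Real.exp (-(μ / 3 * |(p.2.2 : ℝ)|)))) ∘ e3) k
    = Real.exp (-(μ / 3 * |(k 0 : ℝ)|)) *
    (Real.exp (-(μ / 3 * |(k 1 : ℝ)|)) * Real.exp (-(μ / 3 * |(k 2 : ℝ)|))) := rfl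
  rw [e5, ← Real.exp_add, ← Real.exp_add]
  refine Real.exp_le_exp.mpr ?_
  have := fun j : Fin 3 => mul_le_mul_of_nonneg_left (abs_le_len k j) (by positivity : 0 ≤ μ / 3)
  have h0 := this 0
  have h1 := this 1
  have h2 := this 2
  linarith

/-- Summability of `|k| e^{-μ|k|}`. -/
theorem summable_len_exp {μ : ℝ} (hμ : 0 < μ) :
    Summable fun k : K3 => len k * Real.exp (-(μ * len k)) := by
  refine Summable.of_nonneg_of_le (fun k => mul_nonneg (len_nonneg k) (Real.exp_pos _).le)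
    (fun k => ?_) ((summable_exp_len (μ := μ / 2) (by positivity)).mul_left (2 / μ))
  have h1 : μ / 2 * len k ≤ Real.exp (μ / 2 * len k) := by
    have := Real.add_one_le_exp (μ / 2 * len k)
    linarith
  have h2 : len k ≤ 2 / μ * Real.exp (μ / 2 * len k) := by
    rw [div_mul_eq_mul_div, le_div_iff₀ hμ]
    linarith
  calc len k * Real.exp (-(μ * len k))
      ≤ 2 / μ * Real.exp (μ / 2 * len k) * Real.exp (-(μ * len k)) :=
        mul_le_mul_of_nonneg_right h2 (Real.exp_pos _).le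
    _ = 2 / μ * Real.exp (-(μ / 2 * len k)) := by
        rw [mul_assoc, ← Real.exp_add]
        congr 2
        ring

section unif

variable {a : ℕ → ℝ → Cf} {E : ℝ → Cf} {b : K3 → ℝ} {U : Filter ℕ} {T : ℝ}

/-- Uniform convergence of every coefficient and a summable majorant give uniform convergence in
the sum norm. -/
theorem unif_N (hb : Summable b) (ha : ∀ᶠ n in U, ∀ t ∈ Icc 0 T, ∀ k, ‖a n t k‖ ≤ b k)
    (hE : ∀ t ∈ Icc 0 T, ∀ k, ‖E t k‖ ≤ b k)
    (h : ∀ k, ∀ ε : ℝ, 0 < ε → ∀ᶠ n in U, ∀ t ∈ Icc 0 T, ‖a n t k - E t k‖ ≤ ε) :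
    ∀ ε : ℝ, 0 < ε → ∀ᶠ n in U, ∀ t ∈ Icc 0 T,
      (Summable fun k => ‖a n t k - E t k‖) ∧ ∑' k, ‖a n t k - E t k‖ ≤ ε := by
  intro ε hε
  have h1 := (tendsto_tsum_compl_atTop_zero b).eventually
    (gt_mem_nhds (show (0 : ℝ) < ε / 4 by positivity))
  obtain ⟨A, hA⟩ := h1.exists
  have h2 : ∀ᶠ n in U, ∀ k ∈ A, ∀ t ∈ Icc 0 T, ‖a n t k - E t k‖ ≤ ε / (2 * ((A.card : ℝ) + 1)) := by
    rw [Filter.eventually_all_finset]
    intro k _
    exact h k _ (by positivity)
  filter_upwards [ha, h2] with n hn hn2 t ht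
  have hle : ∀ k, ‖a n t k - E t k‖ ≤ 2 * b k := by
    intro k
    have := norm_sub_le (a n t k) (E t k)
    have h3 := hn t ht k
    have h4 := hE t ht k
    linarith
  have hs : Summable fun k => ‖a n t k - E t k‖ :=
    Summable.of_nonneg_of_le (fun _ => norm_nonneg _) hle (hb.mul_left 2)
  refine ⟨hs, ?_⟩
  rw [← hs.sum_add_tsum_compl (s := A)]
  have h5 : ∑ k ∈ A, ‖a n t k - E t k‖ ≤ ε / 2 := by
    calc ∑ k ∈ A, ‖a n t k - E t k‖ ≤ ∑ _k ∈ A, ε / (2 * ((A.card : ℝ) + 1)) :=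
          Finset.sum_le_sum fun k hk => hn2 k hk t ht
      _ = (A.card : ℝ) * (ε / (2 * ((A.card : ℝ) + 1))) := by rw [Finset.sum_const, nsmul_eq_mul]
      _ ≤ ε / 2 := by
          rw [mul_div_assoc', div_le_div_iff₀ (by positivity) (by norm_num)]
          nlinarith [(Nat.cast_nonneg A.card : (0 : ℝ) ≤ A.card)]
  have h6 : ∑' k : ((A : Set K3)ᶜ : Set K3), ‖a n t k - E t k‖ ≤ ε / 2 := by
    have hs2 : Summable fun k : ((A : Set K3)ᶜ : Set K3) => ‖a n t k - E t k‖ :=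
      hs.subtype _
    have hb2 : Summable fun k : ((A : Set K3)ᶜ : Set K3) => 2 * b k := (hb.mul_left 2).subtype _
    calc ∑' k : ((A : Set K3)ᶜ : Set K3), ‖a n t k - E t k‖
        ≤ ∑' k : ((A : Set K3)ᶜ : Set K3), 2 * b k := hs2.tsum_le_tsum (fun k => hle k) hb2
      _ = 2 * ∑' k : ((A : Set K3)ᶜ : Set K3), b k := tsum_mul_left
      _ ≤ 2 * (ε / 4) := by
          have h7 : ∑' k : ((A : Set K3)ᶜ : Set K3), b k = ∑' k : {x // x ∉ A}, b k := rfl
          rw [h7]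
          linarith
      _ = ε / 2 := by ring
  linarith

end unif

end Pool.Agent.Run7.h782.GD
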