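import Mathlib

/-!
Two scalar lemmas: the integrated inequality for a damped linear equation and Gronwall's lemma.
-/

set_option autoImplicit false

open MeasureTheory Set Filter Topology

namespace Pool.Agent.Run7.h782.GD

/-- `‖y(t)‖ + l ∫ ‖y‖ ≤ ‖y(s)‖ + ∫ ‖G‖` for `y' = -l y + G`, `l ≥ 0`, on `[s,t]`. -/
theorem damped {E : Type*} [NormedAddCommGroup E] [NormedSpace ℝ E] {y G : ℝ → E} {l s t : ℝ}
    (hl : 0 ≤ l) (hst : s ≤ t) (hy : ContinuousOn y (Icc s t)) (hG : ContinuousOn G (Icc s t))
    (hd : ∀ r ∈ Ioo s t, HasDerivAt y (-(l • y r) + G r) r) :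
    ‖y t‖ + l * ∫ r in s..t, ‖y r‖ ≤ ‖y s‖ + ∫ r in s..t, ‖G r‖ := by
  -- continuous extension of `G`
  set G' : ℝ → E := fun r => G (projIcc s t hst r) with hG'
  have hG'c : Continuous G' := by
    have : Continuous fun r : Icc s t => G r := continuousOn_iff_continuous_restrict.mp hG
    exact this.comp continuous_projIcc
  have hG'e : ∀ r ∈ Icc s t, G' r = G r := fun r hr => by
    simp only [hG']
    rw [projIcc_of_mem hst hr]
  set J : ℝ → ℝ := fun r => ∫ q in s..r, Real.exp (l * q) * ‖G' q‖ with hJ
  have hexpc : Continuous fun q : ℝ => Real.exp (l * q) * ‖G' q‖ :=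
    ((Real.continuous_exp.comp (continuous_const.mul continuous_id)).mul hG'c.norm)
  have hJd : ∀ r, HasDerivAt J (Real.exp (l * r) * ‖G' r‖) r := fun r =>
    intervalIntegral.integral_hasDerivAt_right (hexpc.intervalIntegrable _ _)
      (hexpc.stronglyMeasurableAtFilter _ _) hexpc.continuousAt
  have hexpd : ∀ r, HasDerivAt (fun q => Real.exp (l * q)) (Real.exp (l * r) * l) r := by
    intro r
    have := ((hasDerivAt_id r).const_mul l).exp
    simpa using this
  -- bound of `y`
  have hbound : ∀ r ∈ Icc s t, ‖Real.exp (l * r) • y r‖ ≤ Real.exp (l * s) * ‖y s‖ + J r := by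
    have hzc : ContinuousOn (fun r => Real.exp (l * r) • y r) (Icc s t) :=
      ((Real.continuous_exp.comp (continuous_const.mul continuous_id)).continuousOn).smul hy
    refine image_norm_le_of_norm_deriv_right_le_deriv_boundary' (f := fun r => Real.exp (l * r) • y r)
      (f' := fun r => Real.exp (l * r) • G' r)
      (B := fun r => Real.exp (l * s) * ‖y s‖ + J r) (B' := fun r => Real.exp (l * r) * ‖G' r‖)
      hzc ?_ ?_ ?_ ?_ ?_
    · intro r hr
      rcases eq_or_lt_of_le hr.1 with h | h
      · subst h
        -- derivative from the right at `s`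
        have hst' : s < t := hr.2
        refine hasDerivWithinAt_Ici_of_tendsto_deriv (s := Ioo s t) (fun q hq => ?_)
          ((hzc s ⟨le_rfl, hst⟩).mono Ioo_subset_Icc_self) (Ioo_mem_nhdsGT hst') ?_
        · exact (((hexpd q).fun_smul (hd q hq)).differentiableAt).differentiableWithinAt
        · have h1 : (fun q => Real.exp (l * q) • G' q) =ᶠ[𝓝[>] s]
              deriv (fun r => Real.exp (l * r) • y r) := by
            filter_upwards [Ioo_mem_nhdsGT hst'] with q hq
            rw [((hexpd q).fun_smul (hd q hq)).deriv, ← hG'e q (Ioo_subset_Icc_self hq)]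
            module
          refine Tendsto.congr' h1 ?_
          have : ContinuousAt (fun q => Real.exp (l * q) • G' q) s :=
            ((Real.continuous_exp.comp (continuous_const.mul continuous_id)).smul hG'c).continuousAt
          exact this.tendsto.mono_left nhdsWithin_le_nhds
      · have h1 := (hexpd r).fun_smul (hd r ⟨h, hr.2⟩)
        have h2 : HasDerivAt (fun r => Real.exp (l * r) • y r) (Real.exp (l * r) • G' r) r := by
          refine h1.congr_deriv ?_
          rw [hG'e r (Ico_subset_Icc_self hr)]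
          module
        exact h2.hasDerivWithinAt
    · simp only [hJ, intervalIntegral.integral_same, add_zero]
      rw [norm_smul, Real.norm_eq_abs, abs_of_pos (Real.exp_pos _)]
    · exact (continuous_const.add (continuous_iff_continuousAt.mpr fun r =>
        (hJd r).continuousAt)).continuousOn
    · intro r _
      exact ((hJd r).const_add _).hasDerivWithinAt
    · intro r _
      rw [norm_smul, Real.norm_eq_abs, abs_of_pos (Real.exp_pos _)]
  -- the majorant
  set Y : ℝ → ℝ := fun r => Real.exp (-(l * r)) * (Real.exp (l * s) * ‖y s‖ + J r) with hY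
  have hYd : ∀ r, HasDerivAt Y (-(l * Y r) + ‖G' r‖) r := by
    intro r
    have h1 : HasDerivAt (fun q => Real.exp (-(l * q))) (Real.exp (-(l * r)) * (-l)) r := by
      have := (((hasDerivAt_id r).const_mul l).neg).exp
      simpa using this
    have h2 := h1.fun_mul ((hJd r).const_add (Real.exp (l * s) * ‖y s‖))
    refine h2.congr_deriv ?_
    have h3 : Real.exp (-(l * r)) * (Real.exp (l * r) * ‖G' r‖) = ‖G' r‖ := by
      rw [← mul_assoc, ← Real.exp_add, neg_add_cancel, Real.exp_zero, one_mul]
    rw [h3, hY]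
    ring
  have hYc : Continuous Y := continuous_iff_continuousAt.mpr fun r => (hYd r).continuousAt
  have hle : ∀ r ∈ Icc s t, ‖y r‖ ≤ Y r := by
    intro r hr
    have h1 := hbound r hr
    rw [norm_smul, Real.norm_eq_abs, abs_of_pos (Real.exp_pos _)] at h1
    have h2 := mul_le_mul_of_nonneg_left h1 (Real.exp_pos (-(l * r))).le
    rw [← mul_assoc, ← Real.exp_add, neg_add_cancel, Real.exp_zero, one_mul] at h2
    exact h2
  have hFTC : ∫ r in s..t, (-(l * Y r) + ‖G' r‖) = Y t - Y s := by
    refine intervalIntegral.integral_eq_sub_of_hasDerivAt (fun r _ => hYd r) ?_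
    exact ((continuous_const.mul hYc).neg.add hG'c.norm).intervalIntegrable _ _
  have hYs : Y s = ‖y s‖ := by
    simp only [hY, hJ, intervalIntegral.integral_same, add_zero]
    rw [← mul_assoc, ← Real.exp_add, neg_add_cancel, Real.exp_zero, one_mul]
  have hlY : Continuous fun r => -(l * Y r) := (continuous_const.mul hYc).neg
  rw [intervalIntegral.integral_add (hlY.intervalIntegrable _ _)
    (hG'c.norm.intervalIntegrable _ _), intervalIntegral.integral_neg,
    intervalIntegral.integral_const_mul, hYs] at hFTC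
  have hint : ∫ r in s..t, ‖y r‖ ≤ ∫ r in s..t, Y r := by
    refine intervalIntegral.integral_mono_on hst ?_ (hYc.intervalIntegrable _ _) hle
    rw [← uIcc_of_le hst] at hy
    exact hy.norm.intervalIntegrable
  have hG2 : ∫ r in s..t, ‖G' r‖ = ∫ r in s..t, ‖G r‖ := by
    refine intervalIntegral.integral_congr fun r hr => ?_
    rw [uIcc_of_le hst] at hr
    simp only [hG'e r hr]
  have h4 := mul_le_mul_of_nonneg_left hint hl
  have h5 := hle t ⟨hst, le_rfl⟩
  rw [hG2] at hFTC
  linarith

/-- Gronwall's lemma in integral form. -/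
theorem gronwall {y b : ℝ → ℝ} {c : ℝ} {T : ℝ} (hy : Continuous y) (hb : Continuous b)
    (hb0 : ∀ t, 0 ≤ t → 0 ≤ b t) (h : ∀ t, 0 ≤ t → t ≤ T → y t ≤ c + ∫ s in (0 : ℝ)..t, b s * y s) :
    ∀ t, 0 ≤ t → t ≤ T →
      c + (∫ s in (0 : ℝ)..t, b s * y s) ≤ c * Real.exp (∫ s in (0 : ℝ)..t, b s) := by
  set I : ℝ → ℝ := fun t => ∫ s in (0 : ℝ)..t, b s with hI
  set G : ℝ → ℝ := fun t => c + ∫ s in (0 : ℝ)..t, b s * y s with hG
  have hId : ∀ t, HasDerivAt I (b t) t := fun t =>
    intervalIntegral.integral_hasDerivAt_right (hb.intervalIntegrable _ _)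
      (hb.stronglyMeasurableAtFilter _ _) hb.continuousAt
  have hby : Continuous fun s => b s * y s := hb.mul hy
  have hGd : ∀ t, HasDerivAt G (b t * y t) t := fun t =>
    (intervalIntegral.integral_hasDerivAt_right (hby.intervalIntegrable _ _)
      (hby.stronglyMeasurableAtFilter _ _) hby.continuousAt).const_add c
  set H : ℝ → ℝ := fun t => G t * Real.exp (-I t) with hH
  have hHd : ∀ t, HasDerivAt H (b t * (y t - G t) * Real.exp (-I t)) t := by
    intro t
    have := (hGd t).fun_mul ((hId t).fun_neg.exp)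
    refine this.congr_deriv ?_
    ring
  intro t ht htT
  have hanti : AntitoneOn H (Icc 0 T) := by
    refine antitoneOn_of_deriv_nonpos (convex_Icc 0 T)
      (continuous_iff_continuousAt.mpr fun r => (hHd r).continuousAt).continuousOn
      (fun r _ => (hHd r).differentiableAt.differentiableWithinAt) fun r hr => ?_
    rw [interior_Icc] at hr
    rw [(hHd r).deriv]
    have h1 := h r hr.1.le hr.2.le
    have h2 := hb0 r hr.1.le
    have h3 : y r - G r ≤ 0 := by simp only [hG]; linarith
    exact mul_nonpos_of_nonpos_of_nonneg (mul_nonpos_of_nonneg_of_nonpos h2 h3) (Real.exp_pos _).le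
  have h1 := hanti ⟨le_rfl, ht.trans htT⟩ ⟨ht, htT⟩ ht
  have h0 : H 0 = c := by simp [hH, hG, hI]
  rw [h0] at h1
  have h2 := mul_le_mul_of_nonneg_right h1 (Real.exp_pos (I t)).le
  have h3 : H t * Real.exp (I t) = G t := by
    simp only [hH]
    rw [mul_assoc, ← Real.exp_add, neg_add_cancel, Real.exp_zero, mul_one]
  rw [h3] at h2
  exact h2

end Pool.Agent.Run7.h782.GD
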