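import Pool.Agent.Run7.h782.GD.Lim
import Pool.Agent.Run7.h782.GD.OdeL

/-!
Once the critical norm is small, the sum norm does not increase.
-/

set_option autoImplicit false

open MeasureTheory Set Filter Topology
open scoped ContDiff ComplexConjugate NNReal

namespace Pool.Agent.Run7.h782.GD

open H459R3.NS

section conv

variable {a : Cf} {C μ : ℝ}

/-- Summability of `|k|^j e^{-μ|k|}`, `j ≤ 2`. -/
theorem summable_len2_exp {μ : ℝ} (hμ : 0 < μ) :
    Summable fun k : K3 => len k ^ 2 * Real.exp (-(μ * len k)) := by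
  refine Summable.of_nonneg_of_le (fun k => by positivity)
    (fun k => ?_) ((summable_len_exp (μ := μ / 2) (by positivity)).mul_left (2 / μ))
  have h1 : μ / 2 * len k ≤ Real.exp (μ / 2 * len k) := by
    have := Real.add_one_le_exp (μ / 2 * len k)
    linarith
  have h2 : len k ≤ 2 / μ * Real.exp (μ / 2 * len k) := by
    rw [div_mul_eq_mul_div, le_div_iff₀ hμ]
    linarith
  calc len k ^ 2 * Real.exp (-(μ * len k)) = len k * (len k * Real.exp (-(μ * len k))) := by ring
    _ ≤ len k * (2 / μ * Real.exp (μ / 2 * len k) * Real.exp (-(μ * len k))) :=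
        mul_le_mul_of_nonneg_left (mul_le_mul_of_nonneg_right h2 (Real.exp_pos _).le) (len_nonneg k)
    _ = 2 / μ * (len k * Real.exp (-(μ / 2 * len k))) := by
        have : Real.exp (μ / 2 * len k) * Real.exp (-(μ * len k))
            = Real.exp (-(μ / 2 * len k)) := by
          rw [← Real.exp_add]
          congr 1
          ring
        rw [mul_assoc (2 / μ), this]
        ring

/-- The estimate of the nonlinear term in the sum norm. -/
theorem sum_nl_le_two (h0 : a 0 = 0) (hμ : 0 < μ)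
    (ha : ∀ k, ‖a k‖ ≤ C * Real.exp (-(μ * len k))) (A : Finset K3) :
    ∑ k ∈ A, ‖nl a a k‖ ≤ 48 * Real.pi * ((∑' k, ‖a k‖ / len k) * ∑' k, len k ^ 2 * ‖a k‖) := by
  have hs0 : Summable fun k => ‖a k‖ :=
    Summable.of_nonneg_of_le (fun _ => norm_nonneg _) ha ((summable_exp_len hμ).mul_left C)
  have hs1 : Summable fun k => len k * ‖a k‖ := by
    refine Summable.of_nonneg_of_le (fun k => mul_nonneg (len_nonneg k) (norm_nonneg _))
      (fun k => ?_) ((summable_len_exp hμ).mul_left C)
    calc len k * ‖a k‖ ≤ len k * (C * Real.exp (-(μ * len k))) :=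
          mul_le_mul_of_nonneg_left (ha k) (len_nonneg k)
      _ = _ := by ring
  have hs2 : Summable fun k => len k ^ 2 * ‖a k‖ := by
    refine Summable.of_nonneg_of_le (fun k => by positivity)
      (fun k => ?_) ((summable_len2_exp hμ).mul_left C)
    calc len k ^ 2 * ‖a k‖ ≤ len k ^ 2 * (C * Real.exp (-(μ * len k))) :=
          mul_le_mul_of_nonneg_left (ha k) (by positivity)
      _ = _ := by ring
  have hsm : Summable fun k => ‖a k‖ / len k := by
    refine Summable.of_nonneg_of_le (fun k => div_nonneg (norm_nonneg _) (len_nonneg k))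
      (fun k => ?_) hs0
    by_cases hk : k = 0
    · subst hk; simp
    · exact div_le_self (norm_nonneg _) (one_le_len hk)
  set X0 := ∑' k, ‖a k‖ with hX0
  set X1 := ∑' k, len k * ‖a k‖ with hX1
  set X2 := ∑' k, len k ^ 2 * ‖a k‖ with hX2
  set Xm := ∑' k, ‖a k‖ / len k with hXm
  have hpi := Real.pi_pos
  have hb0 : ∀ k : K3, 0 ≤ len k * ‖a k‖ := fun k => mul_nonneg (len_nonneg k) (norm_nonneg _)
  -- first step
  have step1 : ∑ k ∈ A, ‖nl a a k‖ ≤ 48 * Real.pi * (X1 * X0) := by
    have key : ∀ k, ‖nl a a k‖ ≤ 24 * Real.pi *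
        ((∑' p, (len p * ‖a p‖) * ‖a (k - p)‖) + ∑' p, ‖a p‖ * (len (k - p) * ‖a (k - p)‖)) := by
      intro k
      have c1 := summable_conv hb0 (fun k => norm_nonneg (a k)) hs1 hs0 k
      have c2 := summable_conv (fun k => norm_nonneg (a k)) hb0 hs0 hs1 k
      have c0 := summable_conv (fun k => norm_nonneg (a k)) (fun k => norm_nonneg (a k)) hs0 hs0 k
      refine (norm_nl_le hs0 hs0 k).trans ?_
      rw [mul_assoc]
      refine mul_le_mul_of_nonneg_left ?_ (by positivity)
      rw [← tsum_mul_left, ← c1.tsum_add c2]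
      refine Summable.tsum_le_tsum (fun p => ?_) (c0.mul_left _) (c1.add c2)
      have h1 := mul_le_mul_of_nonneg_right (len_le_add k p)
        (mul_nonneg (norm_nonneg (a p)) (norm_nonneg (a (k - p))))
      refine h1.trans (le_of_eq ?_)
      ring
    have hin : ∀ (f : K3 → ℝ), (∀ k, 0 ≤ f k) → Summable f → ∀ p : K3,
        ∑ k ∈ A, f (k - p) ≤ ∑' q, f q := by
      intro f hf hfs p
      have e := Finset.sum_map A (Equiv.subRight p).toEmbedding f
      simp only [Equiv.coe_toEmbedding, Equiv.subRight_apply] at e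
      rw [← e]
      exact hfs.sum_le_tsum _ fun q _ => hf q
    have conv : ∀ (f g : K3 → ℝ), (∀ k, 0 ≤ f k) → (∀ k, 0 ≤ g k) → Summable f → Summable g →
        ∑ k ∈ A, ∑' p, f p * g (k - p) ≤ (∑' p, f p) * ∑' q, g q := by
      intro f g hf hg hfs hgs
      rw [← Summable.tsum_finsetSum fun k _ => summable_conv hf hg hfs hgs k, ← tsum_mul_right]
      have hle : ∀ p, ∑ k ∈ A, f p * g (k - p) ≤ f p * ∑' q, g q := fun p => by
        rw [← Finset.mul_sum]
        exact mul_le_mul_of_nonneg_left (hin g hg hgs p) (hf p)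
      refine Summable.tsum_le_tsum hle ?_ (hfs.mul_right _)
      exact Summable.of_nonneg_of_le
        (fun p => Finset.sum_nonneg fun k _ => mul_nonneg (hf p) (hg _)) hle (hfs.mul_right _)
    calc ∑ k ∈ A, ‖nl a a k‖ ≤ ∑ k ∈ A, 24 * Real.pi *
          ((∑' p, (len p * ‖a p‖) * ‖a (k - p)‖) + ∑' p, ‖a p‖ * (len (k - p) * ‖a (k - p)‖)) :=
          Finset.sum_le_sum fun k _ => key k
      _ = 24 * Real.pi * ((∑ k ∈ A, ∑' p, (len p * ‖a p‖) * ‖a (k - p)‖)
          + ∑ k ∈ A, ∑' p, ‖a p‖ * (len (k - p) * ‖a (k - p)‖)) := by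
          rw [← Finset.mul_sum, Finset.sum_add_distrib]
      _ ≤ 24 * Real.pi * (X1 * X0 + X0 * X1) := by
          refine mul_le_mul_of_nonneg_left (add_le_add ?_ ?_) (by positivity)
          · exact conv _ _ hb0 (fun k => norm_nonneg (a k)) hs1 hs0
          · exact conv _ _ (fun k => norm_nonneg (a k)) hb0 hs0 hs1
      _ = _ := by ring
  -- the interpolation `X1 X0 ≤ Xm X2`
  have step2 : X1 * X0 ≤ Xm * X2 := by
    have hn0 : ∀ k : K3, 0 ≤ ‖a k‖ := fun k => norm_nonneg _
    have p1 : Summable fun z : K3 × K3 => (len z.1 * ‖a z.1‖) * ‖a z.2‖ :=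
      hs1.mul_of_nonneg hs0 hb0 hn0
    have p1' : Summable fun z : K3 × K3 => ‖a z.1‖ * (len z.2 * ‖a z.2‖) :=
      hs0.mul_of_nonneg hs1 hn0 hb0
    have hm0 : ∀ k : K3, 0 ≤ ‖a k‖ / len k := fun k => div_nonneg (norm_nonneg _) (len_nonneg k)
    have h20 : ∀ k : K3, 0 ≤ len k ^ 2 * ‖a k‖ := fun k => by positivity
    have p2 : Summable fun z : K3 × K3 => (‖a z.1‖ / len z.1) * (len z.2 ^ 2 * ‖a z.2‖) :=
      hsm.mul_of_nonneg hs2 hm0 h20
    have p2' : Summable fun z : K3 × K3 => (len z.1 ^ 2 * ‖a z.1‖) * (‖a z.2‖ / len z.2) :=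
      hs2.mul_of_nonneg hsm h20 hm0
    have e1 : X1 * X0 = ∑' z : K3 × K3, (len z.1 * ‖a z.1‖) * ‖a z.2‖ :=
      hs1.tsum_mul_tsum hs0 p1
    have e1' : X0 * X1 = ∑' z : K3 × K3, ‖a z.1‖ * (len z.2 * ‖a z.2‖) :=
      hs0.tsum_mul_tsum hs1 p1'
    have e2 : Xm * X2 = ∑' z : K3 × K3, (‖a z.1‖ / len z.1) * (len z.2 ^ 2 * ‖a z.2‖) :=
      hsm.tsum_mul_tsum hs2 p2
    have e2' : X2 * Xm = ∑' z : K3 × K3, (len z.1 ^ 2 * ‖a z.1‖) * (‖a z.2‖ / len z.2) :=
      hs2.tsum_mul_tsum hsm p2'
    have h : X1 * X0 + X0 * X1 ≤ Xm * X2 + X2 * Xm := by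
      rw [e1, e1', e2, e2', ← p1.tsum_add p1', ← p2.tsum_add p2']
      refine Summable.tsum_le_tsum (fun z => ?_) (p1.add p1') (p2.add p2')
      obtain ⟨k, l⟩ := z
      simp only
      by_cases hk : k = 0
      · subst hk
        rw [h0]
        simp
      by_cases hl : l = 0
      · subst hl
        rw [h0]
        simp
      have hk' := len_pos hk
      have hl' := len_pos hl
      have key : len k + len l ≤ len l ^ 2 / len k + len k ^ 2 / len l := by
        rw [div_add_div _ _ hk'.ne' hl'.ne', le_div_iff₀ (by positivity)]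
        nlinarith [mul_nonneg (add_pos hk' hl').le (sq_nonneg (len k - len l))]
      have h3 := mul_le_mul_of_nonneg_right key (mul_nonneg (hn0 k) (hn0 l))
      calc len k * ‖a k‖ * ‖a l‖ + ‖a k‖ * (len l * ‖a l‖)
          = (len k + len l) * (‖a k‖ * ‖a l‖) := by ring
        _ ≤ (len l ^ 2 / len k + len k ^ 2 / len l) * (‖a k‖ * ‖a l‖) := h3
        _ = _ := by ring
    nlinarith
  exact step1.trans (mul_le_mul_of_nonneg_left step2 (by positivity))

end conv

theorem ii_sum {f : K3 → ℝ → ℝ} {A : Finset K3} {s t : ℝ}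
    (h : ∀ k ∈ A, IntervalIntegrable (f k) volume s t) :
    IntervalIntegrable (fun r => ∑ k ∈ A, f k r) volume s t := by
  have h1 := IntervalIntegrable.sum A h
  have e : (∑ k ∈ A, f k) = fun r => ∑ k ∈ A, f k r := by
    funext r
    rw [Finset.sum_apply]
  rwa [e] at h1

theorem CSol.nl_cont {ν : ℝ} {a : ℝ → Cf} (H : CSol ν a) (k : K3) :
    ContinuousOn (fun t => nl (a t) (a t) k) (Ici 0) := by
  obtain ⟨μ, hμ, C, hC⟩ := H.dec
  have hac : ∀ k, ContinuousOn (fun t => a t k) (Ici 0) := fun k t ht =>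
    (H.der t ht k).continuousWithinAt
  have h1 : ContinuousOn (fun t => ∑' p, kd k (a t p) • a t (k - p)) (Ici 0) := by
    refine continuousOn_tsum (u := fun p => 3 * len k * (C * Real.exp (-(μ * len p)) *
      (C * Real.exp 0))) (fun p => ?_) ?_ fun p t ht => ?_
    · have h2 : ContinuousOn (fun t => kd k (a t p)) (Ici 0) :=
        continuousOn_finsetSum _ fun j _ =>
          continuousOn_const.mul ((continuous_apply j).comp_continuousOn (hac p))
      exact h2.smul (hac (k - p))
    · exact (((summable_exp_len hμ).mul_left C).mul_right _).mul_left _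
    · refine (norm_term_le k (a t p) (a t (k - p))).trans ?_
      refine mul_le_mul_of_nonneg_left ?_ (by have := len_nonneg k; positivity)
      have h3 := hC t ht p
      have h4 := hC t ht (k - p)
      have hC0 : 0 ≤ C := by
        have h5 := (norm_nonneg _).trans h3
        exact nonneg_of_mul_nonneg_left h5 (Real.exp_pos _)
      refine mul_le_mul h3 (h4.trans ?_) (norm_nonneg _) ((norm_nonneg _).trans h3)
      refine mul_le_mul_of_nonneg_left (Real.exp_le_exp.mpr ?_) hC0
      have := mul_nonneg hμ.le (len_nonneg (k - p))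
      linarith
  have h2 : ContinuousOn (fun t => prjC k (∑' p, kd k (a t p) • a t (k - p))) (Ici 0) :=
    (prjC k).continuous.comp_continuousOn h1
  exact h2.const_smul (2 * Real.pi * Complex.I : ℂ)

theorem stmDecay : StmDecay := by
  refine ⟨1 / 4, by norm_num, ?_⟩
  intro ν hν a H s hs hsm t hst
  have hpi := Real.pi_pos
  obtain ⟨μ, hμ, C, hC⟩ := H.dec
  have hC0 : 0 ≤ C := by
    have h5 := (norm_nonneg _).trans (hC 0 le_rfl 0)
    exact nonneg_of_mul_nonneg_left h5 (Real.exp_pos _)
  have hac : ∀ k, ContinuousOn (fun t => a t k) (Ici 0) := fun k t ht =>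
    (H.der t ht k).continuousWithinAt
  set b : K3 → ℝ := fun k => C * (len k ^ 2 * Real.exp (-(μ * len k))) with hb
  have hbs : Summable b := (summable_len2_exp hμ).mul_left C
  have hb0 : ∀ k, 0 ≤ b k := fun k => by positivity
  have hab : ∀ r, 0 ≤ r → ∀ k, len k ^ 2 * ‖a r k‖ ≤ b k := by
    intro r hr k
    calc len k ^ 2 * ‖a r k‖ ≤ len k ^ 2 * (C * Real.exp (-(μ * len k))) :=
          mul_le_mul_of_nonneg_left (hC r hr k) (by positivity)
      _ = b k := by simp only [hb]; ring
  have hs2 : ∀ r, 0 ≤ r → Summable fun k => len k ^ 2 * ‖a r k‖ := fun r hr =>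
    Summable.of_nonneg_of_le (fun k => by positivity) (hab r hr) hbs
  have hs0 : ∀ r, 0 ≤ r → Summable fun k => ‖a r k‖ := fun r hr =>
    Summable.of_nonneg_of_le (fun _ => norm_nonneg _) (hC r hr) ((summable_exp_len hμ).mul_left C)
  have hsm' : ∀ r, s ≤ r → ∑' k, ‖a r k‖ / len k ≤ 1 / 4 * ν := by
    intro r hr
    refine Real.tsum_le_of_sum_le (fun k => div_nonneg (norm_nonneg _) (len_nonneg k)) fun A => ?_
    exact hsm r hr A
  -- the estimate with the tail
  have main : ∀ A : Finset K3, ∑ k ∈ A, ‖a t k‖ ≤ ∑' k, ‖a s k‖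
      + 12 * Real.pi * ν * (t - s) * ∑' k : {k // k ∉ A}, b k := by
    intro A
    set τ : ℝ := ∑' k : {k // k ∉ A}, b k with hτ
    have h1 : ∀ k ∈ A, ‖a t k‖ + lam ν k * ∫ r in s..t, ‖a r k‖
        ≤ ‖a s k‖ + ∫ r in s..t, ‖nl (a r) (a r) k‖ := by
      intro k _
      have h2 := damped (y := fun r => a r k) (G := fun r => -nl (a r) (a r) k) (l := lam ν k)
        (s := s) (t := t) (by
          rw [lam]
          have := sq_nonneg' k
          positivity) hst
        ((hac k).mono fun r hr => hs.trans hr.1)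
        (((H.nl_cont k).mono fun r hr => hs.trans hr.1).neg) (fun r hr => by
          have h3 := (H.der r (hs.trans hr.1.le) k).hasDerivAt (Ici_mem_nhds (hs.trans_lt hr.1))
          refine h3.congr_deriv ?_
          have : (lam ν k : ℂ) • a r k = lam ν k • a r k := by
            funext i
            simp
          rw [neg_smul, this]
          abel)
      simpa using h2
    have hic : ∀ k, IntervalIntegrable (fun r => ‖a r k‖) volume s t := fun k => by
      refine ContinuousOn.intervalIntegrable ?_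
      rw [uIcc_of_le hst]
      exact ((hac k).mono fun r hr => hs.trans hr.1).norm
    have hin : ∀ k, IntervalIntegrable (fun r => ‖nl (a r) (a r) k‖) volume s t := fun k => by
      refine ContinuousOn.intervalIntegrable ?_
      rw [uIcc_of_le hst]
      exact ((H.nl_cont k).mono fun r hr => hs.trans hr.1).norm
    have h2 : ∑ k ∈ A, ‖a t k‖ + 4 * Real.pi ^ 2 * ν * ∫ r in s..t, ∑ k ∈ A, len k ^ 2 * ‖a r k‖
        ≤ ∑ k ∈ A, ‖a s k‖ + ∫ r in s..t, ∑ k ∈ A, ‖nl (a r) (a r) k‖ := by
      rw [intervalIntegral.integral_finsetSum fun k _ => (hic k).const_mul _,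
        intervalIntegral.integral_finsetSum fun k _ => hin k, Finset.mul_sum,
        ← Finset.sum_add_distrib, ← Finset.sum_add_distrib]
      refine Finset.sum_le_sum fun k hk => ?_
      refine le_trans (le_of_eq ?_) (h1 k hk)
      rw [intervalIntegral.integral_const_mul, lam, len_sq]
      ring
    have h3 : ∫ r in s..t, ∑ k ∈ A, ‖nl (a r) (a r) k‖
        ≤ ∫ r in s..t, (12 * Real.pi * ν * (∑ k ∈ A, len k ^ 2 * ‖a r k‖)
          + 12 * Real.pi * ν * τ) := by
      refine intervalIntegral.integral_mono_on hst ?_ ?_ fun r hr => ?_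
      · exact ii_sum fun k _ => hin k
      · refine IntervalIntegrable.add (IntervalIntegrable.const_mul ?_ _)
          intervalIntegrable_const
        exact ii_sum fun k _ => (hic k).const_mul _
      · have hr0 : 0 ≤ r := hs.trans hr.1
        have h4 := sum_nl_le_two (a := a r) (C := C) (μ := μ) (H.zero r hr0) hμ (hC r hr0) A
        have h5 : ∑' k, len k ^ 2 * ‖a r k‖ ≤ ∑ k ∈ A, len k ^ 2 * ‖a r k‖ + τ := by
          rw [← (hs2 r hr0).sum_add_tsum_compl (s := A)]
          refine add_le_add le_rfl ?_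
          exact ((hs2 r hr0).subtype _).tsum_le_tsum (fun k => hab r hr0 k) (hbs.subtype _)
        have h6 : 0 ≤ ∑' k, len k ^ 2 * ‖a r k‖ := tsum_nonneg fun k => by positivity
        calc ∑ k ∈ A, ‖nl (a r) (a r) k‖
            ≤ 48 * Real.pi * ((∑' k, ‖a r k‖ / len k) * ∑' k, len k ^ 2 * ‖a r k‖) := h4
          _ ≤ 48 * Real.pi * (1 / 4 * ν * ∑' k, len k ^ 2 * ‖a r k‖) := by
              refine mul_le_mul_of_nonneg_left ?_ (by positivity)
              exact mul_le_mul_of_nonneg_right (hsm' r hr.1) h6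
          _ ≤ 48 * Real.pi * (1 / 4 * ν * (∑ k ∈ A, len k ^ 2 * ‖a r k‖ + τ)) := by
              refine mul_le_mul_of_nonneg_left ?_ (by positivity)
              exact mul_le_mul_of_nonneg_left h5 (by positivity)
          _ = _ := by ring
    have hI : IntervalIntegrable (fun r => ∑ k ∈ A, len k ^ 2 * ‖a r k‖) volume s t :=
      ii_sum fun k _ => (hic k).const_mul _
    rw [intervalIntegral.integral_add (hI.const_mul _) intervalIntegrable_const,
      intervalIntegral.integral_const_mul, intervalIntegral.integral_const, smul_eq_mul] at h3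
    have h7 : 0 ≤ ∫ r in s..t, ∑ k ∈ A, len k ^ 2 * ‖a r k‖ :=
      intervalIntegral.integral_nonneg hst fun r _ => Finset.sum_nonneg fun k _ => by positivity
    have h8 : ∑ k ∈ A, ‖a s k‖ ≤ ∑' k, ‖a s k‖ :=
      (hs0 s hs).sum_le_tsum _ fun _ _ => norm_nonneg _
    have h9 : 12 * Real.pi * ν * (∫ r in s..t, ∑ k ∈ A, len k ^ 2 * ‖a r k‖)
        ≤ 4 * Real.pi ^ 2 * ν * ∫ r in s..t, ∑ k ∈ A, len k ^ 2 * ‖a r k‖ := by
      refine mul_le_mul_of_nonneg_right ?_ h7
      have : 3 ≤ Real.pi := Real.pi_gt_three.le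
      nlinarith [mul_pos hpi hν]
    have e : (t - s) * (12 * Real.pi * ν * τ) = 12 * Real.pi * ν * (t - s) * τ := by ring
    rw [e] at h3
    linarith
  -- conclusion
  have hlim : Tendsto (fun A : Finset K3 => ∑' k, ‖a s k‖
      + 12 * Real.pi * ν * (t - s) * ∑' k : {k // k ∉ A}, b k) atTop
      (𝓝 (∑' k, ‖a s k‖ + 12 * Real.pi * ν * (t - s) * 0)) :=
    tendsto_const_nhds.add ((tendsto_tsum_compl_atTop_zero b).const_mul _)
  rw [mul_zero, add_zero] at hlim
  exact le_of_tendsto_of_tendsto (hs0 t (hs.trans hst)).hasSum hlim (Eventually.of_forall main)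

end Pool.Agent.Run7.h782.GD
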