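import Pool.Agent.H459R3.NS.Defs

/-!
Fourier coefficients of fields and the heat semigroup on periodic functions.
-/

set_option autoImplicit false

open MeasureTheory Set

namespace Pool.Agent.Run7.h782.GD

open H459R3.NS

/-- Complex vectors, with the maximum norm. -/
abbrev C3 := Fin 3 → ℂ

/-- The squared Euclidean length of a frequency. -/
noncomputable def sq (k : K3) : ℝ := ∑ j, (k j : ℝ) ^ 2

/-- The Euclidean length of a frequency. -/
noncomputable def len (k : K3) : ℝ := Real.sqrt (sq k)

/-- The heat semigroup on periodic functions, as a Fourier multiplier. -/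
noncomputable def heat (t : ℝ) (f : V → ℝ) (x : V) : ℝ :=
  (∑' k : K3, (Real.exp (-(4 * Real.pi ^ 2 * sq k * t)) : ℂ) * fr f k * ee k x).re

/-- The vector of the Fourier coefficients of a field. -/
noncomputable def vf (u : V → V) (k : K3) : C3 := fun i => fr (fun x => u x i) k

end Pool.Agent.Run7.h782.GD
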