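import Pool.Agent.H459R3.NS.Ser
import Pool.Agent.Run7.h782.GD.Pub

/-!
Density of the data with global smooth periodic solutions of the Navier-Stokes equations:
definitions and statements of the pieces.
-/

set_option autoImplicit false

open MeasureTheory Set Filter Topology
open scoped ContDiff

namespace Pool.Agent.Run7.h782.GD

open H459R3.NS

/-- Families of coefficients. -/
abbrev Cf := K3 → C3

/-- The scalar product of a frequency and a complex vector. -/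
noncomputable def kd (k : K3) (v : C3) : ℂ := ∑ j, (k j : ℂ) * v j

/-- The projection to the orthogonal complement of `k` (the identity for `k = 0`). -/
noncomputable def prj (k : K3) (v : C3) : C3 := fun i => v i - (k i : ℂ) * (kd k v / (sq k : ℂ))

/-- The Fourier coefficients of the divergence free part of `(a·∇) b = div (a ⊗ b)`, for the
divergence free field with coefficients `a`. -/
noncomputable def nl (a b : Cf) (k : K3) : C3 :=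
  (2 * Real.pi * Complex.I : ℂ) • prj k (∑' p : K3, kd k (a p) • b (k - p))

/-- The decay rate of the mode `k`. -/
noncomputable def lam (ν : ℝ) (k : K3) : ℝ := 4 * Real.pi ^ 2 * ν * sq k

/-- Coefficients of real fields. -/
def Herm (a : Cf) : Prop := ∀ k i, a (-k) i = (starRingEnd ℂ) (a k i)

/-- Coefficients of divergence free fields. -/
def Dv (a : Cf) : Prop := ∀ k, kd k (a k) = 0

/-- Global solutions of the equation for the Fourier coefficients, with mean zero and uniform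
exponential decay. -/
structure CSol (ν : ℝ) (a : ℝ → Cf) : Prop where
  dec : ∃ μ > 0, ∃ C : ℝ, ∀ t, 0 ≤ t → ∀ k, ‖a t k‖ ≤ C * Real.exp (-(μ * len k))
  zero : ∀ t, 0 ≤ t → a t 0 = 0
  herm : ∀ t, 0 ≤ t → Herm (a t)
  div : ∀ t, 0 ≤ t → Dv (a t)
  der : ∀ t, 0 ≤ t → ∀ k, HasDerivWithinAt (fun s => a s k)
    (-(lam ν k : ℂ) • a t k - nl (a t) (a t) k) (Ici 0) t

/-- The real vector field with the coefficients `a t`. -/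
noncomputable def fld (a : ℝ → Cf) (t : ℝ) (x : V) : V := fun i => (S (fun k => a t k i) x).re

/-- **Piece P3.** -/
def StmPhys : Prop := ∀ (ν : ℝ) (a : ℝ → Cf), CSol ν a →
  ∃ p : ℝ → V → ℝ, ∀ T : ℝ, IsSol ν T (fld a) p

/-- Approximate solutions `v` with finitely many modes and residual `F`. -/
structure Appr (ν : ℝ) (B : Finset K3) (v F : ℝ → Cf) : Prop where
  zero : (0 : K3) ∉ B
  suppv : ∀ t, ∀ k ∉ B, v t k = 0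
  suppF : ∀ t, ∀ k ∉ B, F t k = 0
  contF : ∀ k, ContinuousOn (fun t => F t k) (Ici 0)
  hermv : ∀ t, 0 ≤ t → Herm (v t)
  hermF : ∀ t, 0 ≤ t → Herm (F t)
  divv : ∀ t, 0 ≤ t → Dv (v t)
  divF : ∀ t, 0 ≤ t → Dv (F t)
  der : ∀ t, 0 ≤ t → ∀ k, HasDerivWithinAt (fun s => v s k)
    (-(lam ν k : ℂ) • v t k - nl (v t) (v t) k + F t k) (Ici 0) t

/-- **Pieces P1, P2.** Global solutions near approximate solutions. -/
def StmT1 : Prop := ∃ C₁ : ℝ, 0 < C₁ ∧ ∀ (ν : ℝ), 0 < ν → ∀ (B : Finset K3) (v F : ℝ → Cf)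
  (g : ℝ → ℝ) (K η : ℝ), Appr ν B v F → Continuous g →
  (∀ t, 0 ≤ t → ∑ k ∈ B, ‖F t k‖ / len k ≤ g t) →
  (∀ T, 0 ≤ T → ∫ t in (0 : ℝ)..T, g t ≤ η) →
  (∀ T, 0 ≤ T → ∫ t in (0 : ℝ)..T, (∑ k ∈ B, ‖v t k‖) ^ 2 ≤ K) →
  C₁ * η * Real.exp (C₁ * K / ν) ≤ ν →
  ∃ a : ℝ → Cf, CSol ν a ∧ a 0 = v 0 ∧
    (∀ t, 0 ≤ t → ∀ A : Finset K3,
      ∑ k ∈ A, ‖a t k - v t k‖ / len k ≤ C₁ * η * Real.exp (C₁ * K / ν)) ∧
    ∀ T, 0 ≤ T → ∀ A : Finset K3, ∫ t in (0 : ℝ)..T, ∑ k ∈ A, len k * ‖a t k - v t k‖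
      ≤ C₁ * η * Real.exp (C₁ * K / ν) / ν

/-- **Piece P4.** The approximate solutions. -/
def StmApp : Prop := ∃ C₀ : ℝ, 0 < C₀ ∧ ∀ (ν : ℝ), 0 < ν → ∀ (Z : Finset K3) (z : Cf),
  (0 : K3) ∉ Z → (∀ k ∉ Z, z k = 0) → Herm z → Dv z →
  ∃ K : ℝ, ∀ δ : ℝ, 0 < δ → ∀ R η : ℝ, 0 < η →
  ∃ (B : Finset K3) (v F : ℝ → Cf) (g : ℝ → ℝ) (w : Cf), Appr ν B v F ∧ Continuous g ∧
    (∀ t, 0 ≤ t → ∑ k ∈ B, ‖F t k‖ / len k ≤ g t) ∧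
    (∀ T, 0 ≤ T → ∫ t in (0 : ℝ)..T, g t ≤ η) ∧
    (∀ T, 0 ≤ T → ∫ t in (0 : ℝ)..T, (∑ k ∈ B, ‖v t k‖) ^ 2 ≤ K) ∧
    (∀ k, v 0 k = z k + w k) ∧ (∀ k ∉ B, w k = 0) ∧ (∀ k, len k ≤ R → w k = 0) ∧
    (∀ t, 0 < t → ∑ k ∈ B, Real.exp (-(4 * Real.pi ^ 2 * sq k * t)) * ‖w k‖ ≤ δ / Real.sqrt t) ∧
    (∀ T, 0 ≤ T → ∫ t in (0 : ℝ)..T,
      (∑ k ∈ B, Real.exp (-(4 * Real.pi ^ 2 * sq k * t)) * ‖w k‖) ^ 2
        ≤ C₀ * ν * ∑ k ∈ Z, ‖z k‖ / len k) ∧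
    ∀ t, δ ≤ t → ∑ k ∈ B, ‖v t k‖ ≤ δ

/-- **Piece P6.** Once the critical norm is small the sup norm does not increase. -/
def StmDecay : Prop := ∃ c : ℝ, 0 < c ∧ ∀ (ν : ℝ), 0 < ν → ∀ a : ℝ → Cf, CSol ν a →
  ∀ s, 0 ≤ s → (∀ t, s ≤ t → ∀ A : Finset K3, ∑ k ∈ A, ‖a t k‖ / len k ≤ c * ν) →
  ∀ t, s ≤ t → ∑' k, ‖a t k‖ ≤ ∑' k, ‖a s k‖

/-- **The theorem.** -/
def StmMain : Prop := ∃ C₀ : ℝ, 0 < C₀ ∧ ∀ (ν : ℝ), 0 < ν → ∀ u₀ : V → V, ContDiff ℝ ∞ u₀ →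
  Per u₀ → (∀ x, ∑ i, pd i (fun y => u₀ y i) x = 0) → ∀ δ : ℝ, 0 < δ → ∀ R : ℝ,
  ∃ (u : ℝ → V → V) (p : ℝ → V → ℝ), (∀ T, IsSol ν T u p) ∧
    (∀ k, len k ≤ R → vf (u 0) k = vf u₀ k) ∧
    (∃ h : ℝ → ℝ, (∀ t, 0 < t → (∀ x i, |heat t (fun y => u 0 y i - u₀ y i) x| ≤ h t) ∧
        h t ≤ δ / Real.sqrt t) ∧
      IntegrableOn (fun t => h t ^ 2) (Ioi 0) ∧
      ∫ t in Ioi (0 : ℝ), h t ^ 2 ≤ C₀ * ν * ∑' k, ‖vf u₀ k‖ / len k) ∧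
    ∀ t, δ ≤ t → ∀ x i, |u t x i - ∫ y in cube, u₀ y i| ≤ δ

end Pool.Agent.Run7.h782.GD
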