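import Pool.Agent.Run7.h782.GD.Bas
import Pool.Agent.Run7.h782.GD.OdeL
import Pool.Agent.Helper27.Har.P_global_ode

/-!
Galerkin approximations of the error equation.
-/

set_option autoImplicit false

open MeasureTheory Set Filter Topology
open scoped ContDiff ComplexConjugate NNReal

namespace Pool.Agent.Run7.h782.GD

open H459R3.NS

/-! ### Weighted sums over a finite set of frequencies -/

/-- `∑ e^{μ|k|} |a_k| / |k|` -/
noncomputable def nm (μ : ℝ) (B : Finset K3) (a : Cf) : ℝ :=
  ∑ k ∈ B, Real.exp (μ * len k) * ‖a k‖ / len k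

/-- `∑ e^{μ|k|} |a_k|` -/
noncomputable def n0 (μ : ℝ) (B : Finset K3) (a : Cf) : ℝ :=
  ∑ k ∈ B, Real.exp (μ * len k) * ‖a k‖

/-- `∑ |k| e^{μ|k|} |a_k|` -/
noncomputable def n1 (μ : ℝ) (B : Finset K3) (a : Cf) : ℝ :=
  ∑ k ∈ B, len k * (Real.exp (μ * len k) * ‖a k‖)

section norms

variable {μ : ℝ} {B : Finset K3} {a b : Cf}

theorem nm_nonneg : 0 ≤ nm μ B a :=
  Finset.sum_nonneg fun k _ => div_nonneg (by positivity) (len_nonneg k)

theorem n0_nonneg : 0 ≤ n0 μ B a := Finset.sum_nonneg fun k _ => by positivity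

theorem n1_nonneg : 0 ≤ n1 μ B a :=
  Finset.sum_nonneg fun k _ => mul_nonneg (len_nonneg k) (by positivity)

theorem nm_smul (c : ℂ) : nm μ B (c • a) = ‖c‖ * nm μ B a := by
  rw [nm, nm, Finset.mul_sum]
  refine Finset.sum_congr rfl fun k _ => ?_
  rw [Pi.smul_apply, norm_smul]
  ring

theorem n0_smul (c : ℂ) : n0 μ B (c • a) = ‖c‖ * n0 μ B a := by
  rw [n0, n0, Finset.mul_sum]
  refine Finset.sum_congr rfl fun k _ => ?_
  rw [Pi.smul_apply, norm_smul]
  ring

theorem n1_smul (c : ℂ) : n1 μ B (c • a) = ‖c‖ * n1 μ B a := by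
  rw [n1, n1, Finset.mul_sum]
  refine Finset.sum_congr rfl fun k _ => ?_
  rw [Pi.smul_apply, norm_smul]
  ring

theorem nm_add_le : nm μ B (a + b) ≤ nm μ B a + nm μ B b := by
  rw [nm, nm, nm, ← Finset.sum_add_distrib]
  refine Finset.sum_le_sum fun k _ => ?_
  rw [← add_div, ← mul_add]
  exact div_le_div_of_nonneg_right (mul_le_mul_of_nonneg_left (norm_add_le _ _)
    (Real.exp_pos _).le) (len_nonneg k)

theorem nm_sub_comm : nm μ B (a - b) = nm μ B (b - a) := by
  rw [nm, nm]
  refine Finset.sum_congr rfl fun k _ => ?_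
  rw [Pi.sub_apply, Pi.sub_apply, norm_sub_rev]

theorem n0_sq_le (hB : (0 : K3) ∉ B) : n0 μ B a ^ 2 ≤ nm μ B a * n1 μ B a := by
  refine Finset.sum_sq_le_sum_mul_sum_of_sq_le_mul _ (fun k _ => div_nonneg (by positivity)
    (len_nonneg k)) (fun k _ => mul_nonneg (len_nonneg k) (by positivity)) fun k hk => le_of_eq ?_
  have : len k ≠ 0 := (len_pos fun h => hB (h ▸ hk)).ne'
  field_simp

/-- `∑ |a_k|` -/
noncomputable def M1 (B : Finset K3) (a : Cf) : ℝ := ∑ k ∈ B, ‖a k‖

theorem M1_nonneg : 0 ≤ M1 B a := Finset.sum_nonneg fun _ _ => norm_nonneg _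

theorem norm_le_M1 (ha : ∀ k ∉ B, a k = 0) (k : K3) : ‖a k‖ ≤ M1 B a := by
  by_cases hk : k ∈ B
  · exact Finset.single_le_sum (f := fun k => ‖a k‖) (fun _ _ => norm_nonneg _) hk
  · rw [ha k hk, norm_zero]
    exact M1_nonneg

theorem M1_le_nm (hB : (0 : K3) ∉ B) (hμ : 0 ≤ μ) : M1 B a ≤ (∑ k ∈ B, len k) * nm μ B a := by
  have h1 : ∀ k ∈ B, ‖a k‖ ≤ len k * nm μ B a := by
    intro k hk
    have hk0 := len_pos fun h => hB (h ▸ hk)
    have h2 : Real.exp (μ * len k) * ‖a k‖ / len k ≤ nm μ B a :=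
      Finset.single_le_sum (f := fun k => Real.exp (μ * len k) * ‖a k‖ / len k)
        (fun k _ => div_nonneg (by positivity) (len_nonneg k)) hk
    rw [div_le_iff₀ hk0] at h2
    have h3 : ‖a k‖ ≤ Real.exp (μ * len k) * ‖a k‖ :=
      le_mul_of_one_le_left (norm_nonneg _) (Real.one_le_exp (mul_nonneg hμ (len_nonneg k)))
    linarith
  rw [Finset.sum_mul]
  exact Finset.sum_le_sum h1

theorem nl_eq_sum (ha : ∀ k ∉ B, a k = 0) (k : K3) :
    nl a b k = (2 * Real.pi * Complex.I : ℂ) • prj k (∑ p ∈ B, kd k (a p) • b (k - p)) := by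
  rw [nl, tsum_eq_sum (s := B)]
  intro p hp
  rw [ha p hp, kd_zero_right, zero_smul]

theorem norm_nl_le_M1 (ha : ∀ k ∉ B, a k = 0) (hb : ∀ k ∉ B, b k = 0) (k : K3) :
    ‖nl a b k‖ ≤ 24 * Real.pi * len k * (M1 B a * M1 B b) := by
  refine (norm_nl_le (L1.of_supp ha) (L1.of_supp hb) k).trans ?_
  refine mul_le_mul_of_nonneg_left ?_ (by have := len_nonneg k; positivity)
  rw [tsum_eq_sum (s := B) (fun p hp => by rw [ha p hp, norm_zero, zero_mul]), M1, Finset.sum_mul]
  exact Finset.sum_le_sum fun p _ => mul_le_mul_of_nonneg_left (norm_le_M1 hb _) (norm_nonneg _)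

theorem nm_nl_le (hμ : 0 ≤ μ) (ha : ∀ k ∉ B, a k = 0) (hb : ∀ k ∉ B, b k = 0) :
    nm μ B (nl a b) ≤ 24 * Real.pi * n0 μ B a * n0 μ B b := by
  have h := sum_nl_le (a := a) (b := b) hμ
    (summable_of_ne_finset_zero (s := B) fun k hk => by rw [ha k hk, norm_zero, mul_zero])
    (summable_of_ne_finset_zero (s := B) fun k hk => by rw [hb k hk, norm_zero, mul_zero]) B
  rwa [tsum_eq_sum (s := B) (fun p hp => by rw [ha p hp, norm_zero, mul_zero]),
    tsum_eq_sum (s := B) (fun p hp => by rw [hb p hp, norm_zero, mul_zero])] at h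

end norms

/-! ### The radial retraction -/

/-- The radial retraction to the ball of radius `R` for the norm `nm`. -/
noncomputable def rho (R μ : ℝ) (B : Finset K3) (a : Cf) : Cf :=
  ((R / max R (nm μ B a) : ℝ) : ℂ) • a

section rho

variable {R μ : ℝ} {B : Finset K3} {a b : Cf}

theorem rho_coef (hR : 0 < R) : 0 ≤ R / max R (nm μ B a) ∧ R / max R (nm μ B a) ≤ 1 := by
  have : 0 < max R (nm μ B a) := lt_max_of_lt_left hR
  exact ⟨by positivity, (div_le_one this).mpr (le_max_left _ _)⟩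

theorem rho_of_le (hR : 0 < R) (h : nm μ B a ≤ R) : rho R μ B a = a := by
  rw [rho, max_eq_left h, div_self hR.ne']
  simp

theorem norm_coef (hR : 0 < R) :
    ‖((R / max R (nm μ B a) : ℝ) : ℂ)‖ = R / max R (nm μ B a) := by
  rw [Complex.norm_real, Real.norm_eq_abs, abs_of_nonneg (rho_coef hR).1]

theorem nm_rho_le (hR : 0 < R) : nm μ B (rho R μ B a) ≤ R := by
  rw [rho, nm_smul, norm_coef hR]
  have h : 0 < max R (nm μ B a) := lt_max_of_lt_left hR
  rw [div_mul_eq_mul_div, div_le_iff₀ h]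
  exact mul_le_mul_of_nonneg_left (le_max_right _ _) hR.le

theorem n1_rho_le (hR : 0 < R) : n1 μ B (rho R μ B a) ≤ n1 μ B a := by
  rw [rho, n1_smul, norm_coef hR]
  exact mul_le_of_le_one_left n1_nonneg (rho_coef hR).2

theorem rho_supp (ha : ∀ k ∉ B, a k = 0) : ∀ k ∉ B, rho R μ B a k = 0 := fun k hk => by
  rw [rho, Pi.smul_apply, ha k hk, smul_zero]

theorem nm_rho_sub_le (hR : 0 < R) :
    nm μ B (rho R μ B a - rho R μ B b) ≤ 2 * nm μ B (a - b) := by
  -- wlog `nm b ≤ nm a`
  have key : ∀ a b : Cf, nm μ B b ≤ nm μ B a →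
      nm μ B (rho R μ B a - rho R μ B b) ≤ 2 * nm μ B (a - b) := by
    intro a b hba
    set x := nm μ B a with hx
    set y := nm μ B b with hy
    have hx0 : 0 ≤ x := nm_nonneg
    have hy0 : 0 ≤ y := nm_nonneg
    have hxy : x ≤ nm μ B (a - b) + y := by
      have := nm_add_le (μ := μ) (B := B) (a := a - b) (b := b)
      rwa [sub_add_cancel] at this
    set p := R / max R x with hp
    set q := R / max R y with hq
    have hp0 : 0 ≤ p := by rw [hp]; positivity
    have hMx : 0 < max R x := lt_max_of_lt_left hR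
    have hMy : 0 < max R y := lt_max_of_lt_left hR
    have hp1 : p ≤ 1 := (div_le_one hMx).mpr (le_max_left _ _)
    have hpq : p ≤ q := by
      rw [hp, hq]
      exact div_le_div_of_nonneg_left hR.le hMy (max_le_max le_rfl hba)
    have e : rho R μ B a - rho R μ B b = ((p : ℝ) : ℂ) • (a - b) + (((p - q : ℝ)) : ℂ) • b := by
      rw [rho, rho, ← hx, ← hy, ← hp, ← hq]
      push_cast
      module
    have h1 : nm μ B (rho R μ B a - rho R μ B b) ≤ p * nm μ B (a - b) + (q - p) * y := by
      rw [e]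
      refine nm_add_le.trans ?_
      rw [nm_smul, nm_smul, Complex.norm_real, Complex.norm_real, Real.norm_eq_abs,
        Real.norm_eq_abs, abs_of_nonneg hp0, abs_of_nonpos (by linarith)]
      linarith
    have h2 : (q - p) * y ≤ x - y := by
      have e1 : (q - p) * max R x = q * max R x - R := by
        rw [sub_mul, hp, div_mul_cancel₀ _ hMx.ne']
      have e2 : q * max R y = R := by rw [hq, div_mul_cancel₀ _ hMy.ne']
      have hq0 : 0 ≤ q := hp0.trans hpq
      have hq1 : q ≤ 1 := (div_le_one hMy).mpr (le_max_left _ _)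
      have h3 : (q - p) * max R x = q * (max R x - max R y) := by rw [e1, mul_sub, e2]
      have h4 : max R x - max R y ≤ x - y := by
        rcases le_total R y with h | h
        · rw [max_eq_right h, max_eq_right (h.trans hba)]
        · rw [max_eq_left h]
          rcases le_total R x with h' | h'
          · rw [max_eq_right h']; linarith
          · rw [max_eq_left h']; linarith
      have h5 : (q - p) * y ≤ (q - p) * max R x :=
        mul_le_mul_of_nonneg_left (hba.trans (le_max_right _ _)) (by linarith)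
      have h6 : 0 ≤ max R x - max R y := by
        have := max_le_max (le_refl R) hba
        linarith
      have h7 : q * (max R x - max R y) ≤ 1 * (max R x - max R y) :=
        mul_le_mul_of_nonneg_right hq1 h6
      linarith
    have h8 : p * nm μ B (a - b) ≤ nm μ B (a - b) := mul_le_of_le_one_left nm_nonneg hp1
    linarith
  rcases le_total (nm μ B b) (nm μ B a) with h | h
  · exact key a b h
  · have := key b a h
    rwa [nm_sub_comm, nm_sub_comm (a := b)] at this

end rho

end Pool.Agent.Run7.h782.GD
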