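import Pool.Agent.Run7.h782.GD.Gal

/-!
Galerkin approximations of the error equation: the vector field.
-/

set_option autoImplicit false

open MeasureTheory Set Filter Topology
open scoped ContDiff ComplexConjugate NNReal

namespace Pool.Agent.Run7.h782.GD

open H459R3.NS

variable {B : Finset K3}

/-- The extension by zero. -/
noncomputable def ext (B : Finset K3) (x : ↥B → C3) : Cf :=
  fun k => if h : k ∈ B then x ⟨k, h⟩ else 0

theorem ext_mem {x : ↥B → C3} {k : K3} (h : k ∈ B) : ext B x k = x ⟨k, h⟩ := dif_pos h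

theorem ext_not {x : ↥B → C3} {k : K3} (h : k ∉ B) : ext B x k = 0 := dif_neg h

theorem ext_add (x y : ↥B → C3) : ext B (x + y) = ext B x + ext B y := by
  funext k
  by_cases h : k ∈ B
  · rw [Pi.add_apply, ext_mem h, ext_mem h, ext_mem h, Pi.add_apply]
  · rw [Pi.add_apply, ext_not h, ext_not h, ext_not h, add_zero]

theorem ext_smul (c : ℝ) (x : ↥B → C3) : ext B (c • x) = c • ext B x := by
  funext k
  by_cases h : k ∈ B
  · rw [Pi.smul_apply, ext_mem h, ext_mem h, Pi.smul_apply]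
  · rw [Pi.smul_apply, ext_not h, ext_not h, smul_zero]

theorem ext_sub (x y : ↥B → C3) : ext B (x - y) = ext B x - ext B y := by
  funext k
  by_cases h : k ∈ B
  · rw [Pi.sub_apply, ext_mem h, ext_mem h, ext_mem h, Pi.sub_apply]
  · rw [Pi.sub_apply, ext_not h, ext_not h, ext_not h, sub_zero]

/-- The restriction to `B`. -/
def rst (B : Finset K3) (a : Cf) : ↥B → C3 := fun k => a k

theorem ext_rst_mem {a : Cf} {k : K3} (h : k ∈ B) : ext B (rst B a) k = a k := ext_mem h

/-- The coefficients of real divergence free fields. -/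
def HS (B : Finset K3) : Submodule ℝ (↥B → C3) where
  carrier := {x | Herm (ext B x) ∧ Dv (ext B x)}
  add_mem' := by
    rintro x y ⟨hx1, hx2⟩ ⟨hy1, hy2⟩
    refine ⟨fun k i => ?_, fun k => ?_⟩
    · rw [ext_add, Pi.add_apply, Pi.add_apply, Pi.add_apply, Pi.add_apply, hx1 k i, hy1 k i, map_add]
    · rw [ext_add, Pi.add_apply, kd_add, hx2 k, hy2 k, add_zero]
  zero_mem' := by
    have : ext B (0 : ↥B → C3) = 0 := by
      funext k
      by_cases h : k ∈ B
      · rw [ext_mem h]; rfl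
      · rw [ext_not h]; rfl
    refine ⟨fun k i => ?_, fun k => ?_⟩
    · rw [this]; simp
    · rw [this]; exact kd_zero_right k
  smul_mem' := by
    rintro c x ⟨hx1, hx2⟩
    refine ⟨fun k i => ?_, fun k => ?_⟩
    · rw [ext_smul, Pi.smul_apply, Pi.smul_apply, Pi.smul_apply, Pi.smul_apply, hx1 k i]
      simp
    · have : (c • ext B x) k = (c : ℂ) • ext B x k := by
        rw [Pi.smul_apply]
        funext i
        simp
      rw [ext_smul, this, kd_smul, hx2 k, mul_zero]

theorem Herm.rst {a : Cf} (hs : ∀ k ∈ B, -k ∈ B) (ha : Herm a) : Herm (ext B (rst B a)) := by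
  intro k i
  by_cases h : k ∈ B
  · rw [ext_rst_mem h, ext_rst_mem (hs k h), ha k i]
  · have h' : -k ∉ B := fun h' => h (by simpa using hs _ h')
    rw [ext_not h, ext_not h']
    simp

theorem Dv.rst {a : Cf} (ha : Dv a) : Dv (ext B (rst B a)) := by
  intro k
  by_cases h : k ∈ B
  · rw [ext_rst_mem h, ha k]
  · rw [ext_not h, kd_zero_right]

theorem Herm.add {a b : Cf} (ha : Herm a) (hb : Herm b) : Herm (a + b) := fun k i => by
  rw [Pi.add_apply, Pi.add_apply, Pi.add_apply, Pi.add_apply, ha k i, hb k i, map_add]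

theorem Herm.neg {a : Cf} (ha : Herm a) : Herm (-a) := fun k i => by
  rw [Pi.neg_apply, Pi.neg_apply, Pi.neg_apply, Pi.neg_apply, ha k i, map_neg]

theorem Herm.sub {a b : Cf} (ha : Herm a) (hb : Herm b) : Herm (a - b) := by
  rw [sub_eq_add_neg]
  exact ha.add hb.neg

theorem Herm.smul {a : Cf} (ha : Herm a) (c : ℝ) : Herm ((c : ℂ) • a) := fun k i => by
  rw [Pi.smul_apply, Pi.smul_apply, Pi.smul_apply, Pi.smul_apply, ha k i, smul_eq_mul, smul_eq_mul,
    map_mul, Complex.conj_ofReal]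

theorem Dv.add {a b : Cf} (ha : Dv a) (hb : Dv b) : Dv (a + b) := fun k => by
  rw [Pi.add_apply, kd_add, ha k, hb k, add_zero]

theorem Dv.smul {a : Cf} (ha : Dv a) (c : ℂ) : Dv (c • a) := fun k => by
  rw [Pi.smul_apply, kd_smul, ha k, mul_zero]

theorem Dv.neg {a : Cf} (ha : Dv a) : Dv (-a) := by
  have := ha.smul (-1)
  simpa using this

theorem Dv.sub {a b : Cf} (ha : Dv a) (hb : Dv b) : Dv (a - b) := by
  rw [sub_eq_add_neg]
  exact ha.add hb.neg

/-- The dissipation. -/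
noncomputable def dis (ν : ℝ) (a : Cf) : Cf := fun k => (lam ν k : ℂ) • a k

theorem lam_neg (ν : ℝ) (k : K3) : lam ν (-k) = lam ν k := by rw [lam, lam, sq_neg]

theorem Herm.dis {a : Cf} (ha : Herm a) (ν : ℝ) : Herm (dis ν a) := fun k i => by
  simp only [GD.dis, Pi.smul_apply, smul_eq_mul]
  rw [lam_neg, ha k i, map_mul, Complex.conj_ofReal]

theorem Dv.dis {a : Cf} (ha : Dv a) (ν : ℝ) : Dv (dis ν a) := fun k => by
  rw [GD.dis, kd_smul, ha k, mul_zero]

theorem Herm.rho {R μ : ℝ} {a : Cf} (ha : Herm a) : Herm (rho R μ B a) := ha.smul _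

theorem Dv.rho {R μ : ℝ} {a : Cf} (ha : Dv a) : Dv (rho R μ B a) := ha.smul _

/-- The vector field of the error equation, with a cut-off. -/
noncomputable def vfl (ν R μ : ℝ) (B : Finset K3) (v F a : Cf) : Cf :=
  -(dis ν a) - nl v a - nl a v - nl (rho R μ B a) (rho R μ B a) - F

theorem herm_vfl {ν R μ : ℝ} {v F a : Cf} (hv : Herm v) (hF : Herm F) (ha : Herm a) :
    Herm (vfl ν R μ B v F a) :=
  ((((ha.dis ν).neg.sub (herm_nl hv ha)).sub (herm_nl ha hv)).sub
    (herm_nl ha.rho ha.rho)).sub hF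

theorem dv_vfl {ν R μ : ℝ} {v F a : Cf} (hF : Dv F) (ha : Dv a) :
    Dv (vfl ν R μ B v F a) :=
  ((((ha.dis ν).neg.sub (dv_nl _ _)).sub (dv_nl _ _)).sub (dv_nl _ _)).sub hF

/-- Lipschitz bound for the vector field. -/
theorem vfl_lip {ν R μ V0 : ℝ} (hν : 0 ≤ ν) (hR : 0 < R) (hμ : 0 ≤ μ) (hB : (0 : K3) ∉ B)
    (hV0 : 0 ≤ V0) : ∃ L : ℝ, 0 ≤ L ∧
    ∀ v F : Cf, (∀ k ∉ B, v k = 0) → M1 B v ≤ V0 → ∀ x y : ↥B → C3, ∀ k ∈ B,
      ‖vfl ν R μ B v F (ext B x) k - vfl ν R μ B v F (ext B y) k‖ ≤ L * ‖x - y‖ := by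
  set D : ℝ := ∑ k ∈ B, len k with hD
  have hD0 : 0 ≤ D := Finset.sum_nonneg fun k _ => len_nonneg k
  have hDk : ∀ k ∈ B, len k ≤ D := fun k hk =>
    Finset.single_le_sum (f := fun k => len k) (fun k _ => len_nonneg k) hk
  set W : ℝ := ∑ k ∈ B, Real.exp (μ * len k) / len k with hW
  have hW0 : 0 ≤ W := Finset.sum_nonneg fun k _ => div_nonneg (Real.exp_pos _).le (len_nonneg k)
  set N : ℝ := (B.card : ℝ) with hN
  have hN0 : 0 ≤ N := Nat.cast_nonneg _
  refine ⟨4 * Real.pi ^ 2 * ν * D ^ 2 + 48 * Real.pi * D * V0 * N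
    + 24 * Real.pi * D * (D * (2 * W) * (2 * (D * R))), by positivity, ?_⟩
  intro v F hv hvV x y k hk
  set a := ext B x with ha
  set b := ext B y with hb
  have hab : a - b = ext B (x - y) := (ext_sub x y).symm
  have hsa : ∀ k ∉ B, a k = 0 := fun k hk => ext_not hk
  have hsb : ∀ k ∉ B, b k = 0 := fun k hk => ext_not hk
  have hsab : ∀ k ∉ B, (a - b) k = 0 := fun k hk => by rw [hab]; exact ext_not hk
  have hla := L1.of_supp hsa
  have hlb := L1.of_supp hsb
  have hlv := L1.of_supp hv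
  have hd : ∀ k, ‖(a - b) k‖ ≤ ‖x - y‖ := by
    intro k
    by_cases h : k ∈ B
    · rw [hab, ext_mem h]
      exact norm_le_pi_norm (x - y) ⟨k, h⟩
    · rw [hsab k h, norm_zero]
      exact norm_nonneg _
  have hM : M1 B (a - b) ≤ N * ‖x - y‖ := by
    refine (Finset.sum_le_sum fun k _ => hd k).trans (le_of_eq ?_)
    rw [Finset.sum_const, nsmul_eq_mul]
  have hn : nm μ B (a - b) ≤ W * ‖x - y‖ := by
    rw [nm, hW, Finset.sum_mul]
    refine Finset.sum_le_sum fun k _ => ?_
    rw [div_mul_eq_mul_div]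
    exact div_le_div_of_nonneg_right (mul_le_mul_of_nonneg_left (hd k) (Real.exp_pos _).le)
      (len_nonneg k)
  have hx0 : 0 ≤ ‖x - y‖ := norm_nonneg _
  have hpi := Real.pi_pos
  -- dissipation
  have t1 : ‖(dis ν a - dis ν b) k‖ ≤ 4 * Real.pi ^ 2 * ν * D ^ 2 * ‖x - y‖ := by
    have e : (dis ν a - dis ν b) k = (lam ν k : ℂ) • (a - b) k := by
      rw [Pi.sub_apply, dis, dis, Pi.sub_apply, smul_sub]
    have h0 : 0 ≤ lam ν k := by
      rw [lam]
      have := sq_nonneg' k
      positivity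
    rw [e, norm_smul, Complex.norm_real, Real.norm_eq_abs, abs_of_nonneg h0, lam, ← len_sq]
    have h1 : len k ^ 2 ≤ D ^ 2 := pow_le_pow_left₀ (len_nonneg k) (hDk k hk) 2
    have h2 : 4 * Real.pi ^ 2 * ν * len k ^ 2 ≤ 4 * Real.pi ^ 2 * ν * D ^ 2 :=
      mul_le_mul_of_nonneg_left h1 (by positivity)
    exact mul_le_mul h2 (hd k) (norm_nonneg _) (by positivity)
  have hk0 := len_nonneg k
  have hkD := hDk k hk
  -- the linear terms
  have t2 : ‖(nl v a - nl v b) k‖ ≤ 24 * Real.pi * D * V0 * N * ‖x - y‖ := by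
    rw [← nl_sub_right hlv hla hlb]
    refine (norm_nl_le_M1 hv hsab k).trans ?_
    calc 24 * Real.pi * len k * (M1 B v * M1 B (a - b))
        ≤ 24 * Real.pi * D * (V0 * (N * ‖x - y‖)) := by
          refine mul_le_mul (mul_le_mul_of_nonneg_left hkD (by positivity)) ?_
            (mul_nonneg M1_nonneg M1_nonneg) (by positivity)
          exact mul_le_mul hvV hM M1_nonneg hV0
      _ = _ := by ring
  have t3 : ‖(nl a v - nl b v) k‖ ≤ 24 * Real.pi * D * V0 * N * ‖x - y‖ := by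
    rw [← nl_sub_left hla hlb hlv]
    refine (norm_nl_le_M1 hsab hv k).trans ?_
    calc 24 * Real.pi * len k * (M1 B (a - b) * M1 B v)
        ≤ 24 * Real.pi * D * (N * ‖x - y‖ * V0) := by
          refine mul_le_mul (mul_le_mul_of_nonneg_left hkD (by positivity)) ?_
            (mul_nonneg M1_nonneg M1_nonneg) (by positivity)
          exact mul_le_mul hM hvV M1_nonneg (by positivity)
      _ = _ := by ring
  -- the quadratic term
  set p := rho R μ B a with hp
  set q := rho R μ B b with hq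
  have hsp : ∀ k ∉ B, p k = 0 := rho_supp hsa
  have hsq : ∀ k ∉ B, q k = 0 := rho_supp hsb
  have hspq : ∀ k ∉ B, (p - q) k = 0 := fun k hk => by
    rw [Pi.sub_apply, hsp k hk, hsq k hk, sub_zero]
  have hlp := L1.of_supp hsp
  have hlq := L1.of_supp hsq
  have hMp : M1 B p ≤ D * R :=
    (M1_le_nm hB hμ).trans (mul_le_mul_of_nonneg_left (nm_rho_le hR) hD0)
  have hMq : M1 B q ≤ D * R :=
    (M1_le_nm hB hμ).trans (mul_le_mul_of_nonneg_left (nm_rho_le hR) hD0)
  have hMpq : M1 B (p - q) ≤ D * (2 * (W * ‖x - y‖)) := by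
    refine (M1_le_nm hB hμ).trans (mul_le_mul_of_nonneg_left ?_ hD0)
    exact (nm_rho_sub_le hR).trans (mul_le_mul_of_nonneg_left hn (by norm_num))
  have t4 : ‖(nl p p - nl q q) k‖
      ≤ 24 * Real.pi * D * (D * (2 * W) * (2 * (D * R))) * ‖x - y‖ := by
    have e : nl p p - nl q q = nl (p - q) p + nl q (p - q) := by
      rw [nl_sub_left hlp hlq hlp, nl_sub_right hlq hlp hlq]
      abel
    rw [e, Pi.add_apply]
    refine (norm_add_le _ _).trans ?_
    have h1 := norm_nl_le_M1 hspq hsp k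
    have h2 := norm_nl_le_M1 hsq hspq k
    have h3 : M1 B (p - q) * M1 B p ≤ D * (2 * (W * ‖x - y‖)) * (D * R) :=
      mul_le_mul hMpq hMp M1_nonneg (by positivity)
    have h4 : M1 B q * M1 B (p - q) ≤ D * R * (D * (2 * (W * ‖x - y‖))) :=
      mul_le_mul hMq hMpq M1_nonneg (by positivity)
    have h5 : 24 * Real.pi * len k * (M1 B (p - q) * M1 B p)
        ≤ 24 * Real.pi * D * (D * (2 * (W * ‖x - y‖)) * (D * R)) :=
      mul_le_mul (mul_le_mul_of_nonneg_left hkD (by positivity)) h3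
        (mul_nonneg M1_nonneg M1_nonneg) (by positivity)
    have h6 : 24 * Real.pi * len k * (M1 B q * M1 B (p - q))
        ≤ 24 * Real.pi * D * (D * R * (D * (2 * (W * ‖x - y‖)))) :=
      mul_le_mul (mul_le_mul_of_nonneg_left hkD (by positivity)) h4
        (mul_nonneg M1_nonneg M1_nonneg) (by positivity)
    calc ‖nl (p - q) p k‖ + ‖nl q (p - q) k‖
        ≤ 24 * Real.pi * D * (D * (2 * (W * ‖x - y‖)) * (D * R))
          + 24 * Real.pi * D * (D * R * (D * (2 * (W * ‖x - y‖)))) :=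
          add_le_add (h1.trans h5) (h2.trans h6)
      _ = _ := by ring
  have e : vfl ν R μ B v F a k - vfl ν R μ B v F b k
      = -((dis ν a - dis ν b) k) - (nl v a - nl v b) k - (nl a v - nl b v) k
        - (nl p p - nl q q) k := by
    simp only [vfl, ← hp, ← hq, Pi.sub_apply, Pi.neg_apply]
    abel
  rw [e]
  calc ‖-((dis ν a - dis ν b) k) - (nl v a - nl v b) k - (nl a v - nl b v) k
        - (nl p p - nl q q) k‖
      ≤ ‖(dis ν a - dis ν b) k‖ + ‖(nl v a - nl v b) k‖ + ‖(nl a v - nl b v) k‖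
        + ‖(nl p p - nl q q) k‖ := by
        refine (norm_sub_le _ _).trans (add_le_add ?_ le_rfl)
        refine (norm_sub_le _ _).trans (add_le_add ?_ le_rfl)
        refine (norm_sub_le _ _).trans (add_le_add ?_ le_rfl)
        rw [norm_neg]
    _ ≤ _ := by
        have := add_le_add (add_le_add (add_le_add t1 t2) t3) t4
        refine this.trans (le_of_eq ?_)
        ring

end Pool.Agent.Run7.h782.GD
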