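import Pool.Agent.Run7.h782.GD.Gal2

/-!
Galerkin approximations of the error equation: existence and the a priori estimate.
-/

set_option autoImplicit false

open MeasureTheory Set Filter Topology
open scoped ContDiff ComplexConjugate NNReal

namespace Pool.Agent.Run7.h782.GD

open H459R3.NS

variable {B : Finset K3}

theorem nl_cont {v a : ℝ → Cf} (hs : ∀ t, ∀ k ∉ B, v t k = 0)
    (hv : ∀ k, Continuous fun t => v t k) (ha : ∀ k, Continuous fun t => a t k) (k : K3) :
    Continuous fun t => nl (v t) (a t) k := by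
  have e : (fun t => nl (v t) (a t) k) = fun t => (2 * Real.pi * Complex.I : ℂ) •
      prjC k (∑ p ∈ B, kd k (v t p) • a t (k - p)) := by
    funext t
    rw [nl_eq_sum (hs t), prjC_apply]
  rw [e]
  have h1 : Continuous fun t => ∑ p ∈ B, kd k (v t p) • a t (k - p) := by
    refine continuous_finsetSum _ fun p _ => ?_
    have h2 : Continuous fun t => kd k (v t p) :=
      continuous_finsetSum _ fun j _ => continuous_const.mul ((continuous_apply j).comp (hv p))
    exact h2.smul (ha (k - p))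
  exact ((prjC k).continuous.comp h1).const_smul (2 * Real.pi * Complex.I : ℂ)

theorem nm_cont {μ : ℝ} {a : ℝ → Cf} (ha : ∀ k, Continuous fun t => a t k) :
    Continuous fun t => nm μ B (a t) :=
  continuous_finsetSum _ fun k _ => (continuous_const.mul (ha k).norm).div_const _

theorem n0_cont {μ : ℝ} {a : ℝ → Cf} (ha : ∀ k, Continuous fun t => a t k) :
    Continuous fun t => n0 μ B (a t) :=
  continuous_finsetSum _ fun k _ => continuous_const.mul (ha k).norm

theorem n1_cont {μ : ℝ} {a : ℝ → Cf} (ha : ∀ k, Continuous fun t => a t k) :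
    Continuous fun t => n1 μ B (a t) :=
  continuous_finsetSum _ fun k _ => continuous_const.mul (continuous_const.mul (ha k).norm)

theorem M1_cont {a : ℝ → Cf} (ha : ∀ k, Continuous fun t => a t k) :
    Continuous fun t => M1 B (a t) :=
  continuous_finsetSum _ fun k _ => (ha k).norm

theorem rho_cont {R μ : ℝ} (hR : 0 < R) {a : ℝ → Cf} (ha : ∀ k, Continuous fun t => a t k)
    (k : K3) : Continuous fun t => rho R μ B (a t) k := by
  have e : (fun t => rho R μ B (a t) k)
      = fun t => ((R / max R (nm μ B (a t)) : ℝ) : ℂ) • a t k := rfl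
  rw [e]
  refine Continuous.smul (Complex.continuous_ofReal.comp ?_) (ha k)
  exact continuous_const.div (continuous_const.max (nm_cont ha))
    fun t => (lt_max_of_lt_left hR).ne'

theorem vfl_cont {ν R μ : ℝ} (hR : 0 < R) {v F a : ℝ → Cf}
    (hvs : ∀ t, ∀ k ∉ B, v t k = 0) (has : ∀ t, ∀ k ∉ B, a t k = 0)
    (hv : ∀ k, Continuous fun t => v t k) (hF : ∀ k, Continuous fun t => F t k)
    (ha : ∀ k, Continuous fun t => a t k) (k : K3) :
    Continuous fun t => vfl ν R μ B (v t) (F t) (a t) k := by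
  have e : (fun t => vfl ν R μ B (v t) (F t) (a t) k) = fun t =>
      -((lam ν k : ℂ) • a t k) - nl (v t) (a t) k - nl (a t) (v t) k
        - nl (rho R μ B (a t)) (rho R μ B (a t)) k - F t k := rfl
  rw [e]
  have h0 : Continuous fun t => (lam ν k : ℂ) • a t k := (ha k).const_smul (lam ν k : ℂ)
  have h1 : Continuous fun t => nl (rho R μ B (a t)) (rho R μ B (a t)) k :=
    nl_cont (fun t => rho_supp (has t)) (rho_cont hR ha) (rho_cont hR ha) k
  exact (((h0.neg.sub (nl_cont hvs hv ha k)).sub (nl_cont has ha hv k)).sub h1).sub (hF k)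

/-- The pointwise estimate of the forcing of the error. -/
theorem nm_force_le {ν μ : ℝ} (hν : 0 < ν) (hμ : 0 ≤ μ) (hB : (0 : K3) ∉ B) {v F a : Cf}
    (hv : ∀ k ∉ B, v k = 0) (ha : ∀ k ∉ B, a k = 0) :
    nm μ B (-(nl v a) - nl a v - nl (rho (Real.pi * ν / 24) μ B a) (rho (Real.pi * ν / 24) μ B a)
      - F) ≤ 576 / ν * n0 μ B v ^ 2 * nm μ B a + 2 * Real.pi ^ 2 * ν * n1 μ B a + nm μ B F := by
  set R : ℝ := Real.pi * ν / 24 with hR
  have hpi := Real.pi_pos
  have hR0 : 0 < R := by positivity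
  set p := rho R μ B a with hp
  have h1 : nm μ B (nl v a) ≤ 24 * Real.pi * n0 μ B v * n0 μ B a := nm_nl_le hμ hv ha
  have h2 : nm μ B (nl a v) ≤ 24 * Real.pi * n0 μ B a * n0 μ B v := nm_nl_le hμ ha hv
  have h3 : nm μ B (nl p p) ≤ 24 * Real.pi * n0 μ B p * n0 μ B p :=
    nm_nl_le hμ (rho_supp ha) (rho_supp ha)
  have h4 : n0 μ B p ^ 2 ≤ nm μ B p * n1 μ B p := n0_sq_le hB
  have h5 : nm μ B p * n1 μ B p ≤ R * n1 μ B a :=
    mul_le_mul (nm_rho_le hR0) (n1_rho_le hR0) n1_nonneg hR0.le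
  have h6 : nm μ B (nl p p) ≤ Real.pi ^ 2 * ν * n1 μ B a := by
    calc nm μ B (nl p p) ≤ 24 * Real.pi * n0 μ B p ^ 2 := by rw [pow_two]; linarith
      _ ≤ 24 * Real.pi * (R * n1 μ B a) :=
          mul_le_mul_of_nonneg_left (h4.trans h5) (by positivity)
      _ = _ := by rw [hR]; ring
  set A := n0 μ B v with hA
  set b := n0 μ B a with hb
  set y := nm μ B a with hy
  set Y := n1 μ B a with hY
  have hA0 : 0 ≤ A := n0_nonneg
  have hb0 : 0 ≤ b := n0_nonneg
  have hy0 : 0 ≤ y := nm_nonneg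
  have hY0 : 0 ≤ Y := n1_nonneg
  have hby : b ^ 2 ≤ y * Y := n0_sq_le hB
  -- `48 π A b ≤ π² ν Y + 576/ν A² y`
  have h7 : 48 * Real.pi * A * b ≤ Real.pi ^ 2 * ν * Y + 576 / ν * A ^ 2 * y := by
    set s := Real.sqrt y with hs
    set S := Real.sqrt Y with hS
    have hs2 : s ^ 2 = y := Real.sq_sqrt hy0
    have hS2 : S ^ 2 = Y := Real.sq_sqrt hY0
    have hs0 : 0 ≤ s := Real.sqrt_nonneg _
    have hS0 : 0 ≤ S := Real.sqrt_nonneg _
    have hbs : b ≤ s * S := by
      refine (abs_le_of_sq_le_sq' ?_ (mul_nonneg hs0 hS0)).2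
      rw [mul_pow, hs2, hS2]
      exact hby
    have h8 : 0 ≤ (Real.pi * ν * S - 24 * A * s) ^ 2 / ν := div_nonneg (sq_nonneg _) hν.le
    have h9 : (Real.pi * ν * S - 24 * A * s) ^ 2 / ν
        = Real.pi ^ 2 * ν * Y + 576 / ν * A ^ 2 * y - 48 * Real.pi * A * (s * S) := by
      rw [← hs2, ← hS2]
      field_simp
      ring
    have h10 : 48 * Real.pi * A * b ≤ 48 * Real.pi * A * (s * S) :=
      mul_le_mul_of_nonneg_left hbs (by positivity)
    linarith
  have h11 : nm μ B (-(nl v a) - nl a v - nl p p - F)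
      ≤ nm μ B (nl v a) + nm μ B (nl a v) + nm μ B (nl p p) + nm μ B F := by
    have hneg : ∀ c : Cf, nm μ B (-c) = nm μ B c := by
      intro c
      rw [nm, nm]
      exact Finset.sum_congr rfl fun k _ => by rw [Pi.neg_apply, norm_neg]
    have hsub : ∀ c d : Cf, nm μ B (c - d) ≤ nm μ B c + nm μ B d := by
      intro c d
      have := nm_add_le (μ := μ) (B := B) (a := c) (b := -d)
      rwa [hneg, ← sub_eq_add_neg] at this
    refine (hsub _ _).trans (add_le_add ?_ le_rfl)
    refine (hsub _ _).trans (add_le_add ?_ le_rfl)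
    refine (hsub _ _).trans (add_le_add ?_ le_rfl)
    rw [hneg]
  have e2 : 24 * Real.pi * b * A = 24 * Real.pi * A * b := by ring
  rw [e2] at h2
  linarith

end Pool.Agent.Run7.h782.GD
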