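import Pool.Agent.Run7.h782.GD.Gal3

/-!
Galerkin approximations of the error equation: existence.
-/

set_option autoImplicit false

open MeasureTheory Set Filter Topology
open scoped ContDiff ComplexConjugate NNReal

namespace Pool.Agent.Run7.h782.GD

open H459R3.NS

variable {B : Finset K3}

/-- The projection of the line to `[0,T]`. -/
noncomputable def cl (T t : ℝ) : ℝ := max 0 (min t T)

theorem cl_nonneg (T t : ℝ) : 0 ≤ cl T t := le_max_left _ _

theorem cl_mem {T : ℝ} (hT : 0 ≤ T) (t : ℝ) : cl T t ∈ Icc 0 T :=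
  ⟨le_max_left _ _, max_le hT (min_le_right _ _)⟩

theorem cl_of_mem {T t : ℝ} (ht : t ∈ Icc 0 T) : cl T t = t := by
  rw [cl, min_eq_left ht.2, max_eq_right ht.1]

theorem cl_cont (T : ℝ) : Continuous (cl T) := continuous_const.max (continuous_id.min continuous_const)

/-- Existence of a solution of the equation with the cut-off. -/
theorem exists_cut {ν μ R T : ℝ} (hν : 0 < ν) (hμ : 0 ≤ μ) (hR : 0 < R) (hT : 0 ≤ T)
    (hB : (0 : K3) ∉ B) (hs : ∀ k ∈ B, -k ∈ B) {v F : ℝ → Cf} (hvs : ∀ t, ∀ k ∉ B, v t k = 0)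
    (hvc : ∀ k, ContinuousOn (fun t => v t k) (Ici 0))
    (hFc : ∀ k, ContinuousOn (fun t => F t k) (Ici 0))
    (hvh : ∀ t, 0 ≤ t → Herm (v t)) (hFh : ∀ t, 0 ≤ t → Herm (F t))
    (hFd : ∀ t, 0 ≤ t → Dv (F t)) :
    ∃ e : ℝ → Cf, (∀ t, ∀ k ∉ B, e t k = 0) ∧ e 0 = 0 ∧ (∀ t, Herm (e t)) ∧ (∀ t, Dv (e t)) ∧
      (∀ k, Continuous fun t => e t k) ∧ ∀ t, ∀ k ∈ B, HasDerivAt (fun s => e s k)
        (vfl ν R μ B (v (cl T t)) (F (cl T t)) (e t) k) t := by
  have hcv : ∀ k, Continuous fun t => v (cl T t) k := fun k =>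
    (hvc k).comp_continuous (cl_cont T) fun t => cl_nonneg T t
  have hcF : ∀ k, Continuous fun t => F (cl T t) k := fun k =>
    (hFc k).comp_continuous (cl_cont T) fun t => cl_nonneg T t
  obtain ⟨V0, hV0⟩ := (isCompact_Icc (a := (0 : ℝ)) (b := T)).exists_bound_of_continuousOn
    ((M1_cont (B := B) hcv).continuousOn)
  have hM : ∀ t, M1 B (v (cl T t)) ≤ max V0 0 := by
    intro t
    have h1 := hV0 (cl T t) (cl_mem hT t)
    rw [Real.norm_eq_abs, abs_of_nonneg M1_nonneg, cl_of_mem (cl_mem hT t)] at h1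
    exact h1.trans (le_max_left _ _)
  obtain ⟨L, hL0, hL⟩ := vfl_lip (B := B) hν.le hR hμ hB (le_max_right V0 0)
  have : CompleteSpace (HS B) := FiniteDimensional.complete ℝ _
  let X : ℝ → HS B → HS B := fun t x =>
    ⟨rst B (vfl ν R μ B (v (cl T t)) (F (cl T t)) (ext B x)),
      ⟨(herm_vfl (hvh _ (cl_nonneg T t)) (hFh _ (cl_nonneg T t)) x.2.1).rst hs,
        (dv_vfl (hFd _ (cl_nonneg T t)) x.2.2).rst⟩⟩
  have hXL : ∀ t, LipschitzWith (Real.toNNReal L) (X t) := by
    intro t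
    refine LipschitzWith.of_dist_le_mul fun x y => ?_
    rw [dist_eq_norm, dist_eq_norm, Real.coe_toNNReal L hL0]
    have h1 : ‖X t x - X t y‖ = ‖((X t x - X t y : HS B) : ↥B → C3)‖ := rfl
    have h2 : ‖x - y‖ = ‖((x - y : HS B) : ↥B → C3)‖ := rfl
    rw [h1, h2]
    refine (pi_norm_le_iff_of_nonneg (by positivity)).mpr fun k => ?_
    exact hL (v (cl T t)) (F (cl T t)) (hvs _) (hM t) x y k k.2
  have hXc : Continuous (Function.uncurry X) := by
    refine continuous_prod_of_continuous_lipschitzWith' _ (Real.toNNReal L)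
      (fun t => hXL t) fun x => ?_
    refine Continuous.subtype_mk (continuous_pi fun k => ?_) _
    have h1 := vfl_cont (ν := ν) (μ := μ) (v := fun t => v (cl T t)) (F := fun t => F (cl T t))
      (a := fun _ => ext B (x : ↥B → C3)) hR (fun t => hvs _) (fun t k hk => ext_not hk) hcv hcF
      (fun k => continuous_const) k
    exact h1
  obtain ⟨ξ, hξ0, hξ⟩ := Haraux.global_ode X (Real.toNNReal L) hXL hXc 0
  have hder : ∀ t, ∀ k (hk : k ∈ B), HasDerivAt (fun s => (ξ s : ↥B → C3) ⟨k, hk⟩)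
      (vfl ν R μ B (v (cl T t)) (F (cl T t)) (ext B (ξ t)) k) t := by
    intro t k hk
    let P : HS B →L[ℝ] C3 :=
      (ContinuousLinearMap.proj (R := ℝ) (φ := fun _ : ↥B => C3) ⟨k, hk⟩).comp (HS B).subtypeL
    exact P.hasFDerivAt.comp_hasDerivAt t (hξ t)
  refine ⟨fun t => ext B (ξ t), fun t k hk => ext_not hk, ?_, fun t => (ξ t).2.1,
    fun t => (ξ t).2.2, fun k => ?_, fun t k hk => ?_⟩
  · funext k
    simp only [hξ0]
    by_cases hk : k ∈ B
    · rw [ext_mem hk]; rfl
    · rw [ext_not hk]; rfl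
  · by_cases hk : k ∈ B
    · simp only [ext_mem hk]
      exact continuous_iff_continuousAt.mpr fun t => (hder t k hk).continuousAt
    · simp only [ext_not hk]
      exact continuous_const
  · simp only [ext_mem hk]
    exact hder t k hk

/-- The a priori estimate and the removal of the cut-off. -/
theorem galerkin {ν μ T η K : ℝ} (hν : 0 < ν) (hμ : 0 ≤ μ) (hT : 0 ≤ T)
    (hB : (0 : K3) ∉ B) (hs : ∀ k ∈ B, -k ∈ B) {v F : ℝ → Cf} (hvs : ∀ t, ∀ k ∉ B, v t k = 0)
    (hvc : ∀ k, ContinuousOn (fun t => v t k) (Ici 0))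
    (hFc : ∀ k, ContinuousOn (fun t => F t k) (Ici 0))
    (hvh : ∀ t, 0 ≤ t → Herm (v t)) (hFh : ∀ t, 0 ≤ t → Herm (F t))
    (hFd : ∀ t, 0 ≤ t → Dv (F t)) {g : ℝ → ℝ} (hg : Continuous g)
    (hFg : ∀ t, 0 ≤ t → nm μ B (F t) ≤ g t) (hgη : ∀ t, 0 ≤ t → ∫ s in (0 : ℝ)..t, g s ≤ η)
    (hvK : ∀ t, 0 ≤ t → ∫ s in (0 : ℝ)..t, n0 μ B (v s) ^ 2 ≤ K)
    (hsm : η * Real.exp (576 * K / ν) ≤ Real.pi * ν / 24) :
    ∃ e : ℝ → Cf, (∀ t, ∀ k ∉ B, e t k = 0) ∧ e 0 = 0 ∧ (∀ t, Herm (e t)) ∧ (∀ t, Dv (e t)) ∧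
      (∀ k, Continuous fun t => e t k) ∧
      (∀ t ∈ Icc 0 T, nm μ B (e t) + 2 * Real.pi ^ 2 * ν * ∫ s in (0 : ℝ)..t, n1 μ B (e s)
        ≤ η * Real.exp (576 * K / ν)) ∧
      ∀ t ∈ Icc 0 T, ∀ k ∈ B, HasDerivAt (fun s => e s k)
        (-((lam ν k : ℂ) • e t k) - nl (v t) (e t) k - nl (e t) (v t) k - nl (e t) (e t) k
          - F t k) t := by
  have hpi := Real.pi_pos
  set R : ℝ := Real.pi * ν / 24 with hR
  have hR0 : 0 < R := by positivity
  obtain ⟨e, hes, he0, heh, hed, hec, hder⟩ :=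
    exists_cut hν hμ hR0 hT hB hs hvs hvc hFc hvh hFh hFd
  have hcv : ∀ k, Continuous fun t => v (cl T t) k := fun k =>
    (hvc k).comp_continuous (cl_cont T) fun t => cl_nonneg T t
  have hcF : ∀ k, Continuous fun t => F (cl T t) k := fun k =>
    (hFc k).comp_continuous (cl_cont T) fun t => cl_nonneg T t
  -- the forcing
  set G : ℝ → Cf := fun t => -(nl (v (cl T t)) (e t)) - nl (e t) (v (cl T t))
    - nl (rho R μ B (e t)) (rho R μ B (e t)) - F (cl T t) with hG
  have hGe : ∀ t k, vfl ν R μ B (v (cl T t)) (F (cl T t)) (e t) k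
      = -(lam ν k • e t k) + G t k := by
    intro t k
    simp only [vfl, hG, dis, Pi.sub_apply, Pi.neg_apply]
    have : (lam ν k : ℂ) • e t k = lam ν k • e t k := by
      funext i
      simp
    rw [this]
    abel
  have hGc : ∀ k, Continuous fun t => G t k := by
    intro k
    have h1 : Continuous fun t => nl (rho R μ B (e t)) (rho R μ B (e t)) k :=
      nl_cont (fun t => rho_supp (hes t)) (rho_cont hR0 hec) (rho_cont hR0 hec) k
    exact (((nl_cont (fun t => hvs _) hcv hec k).neg.sub (nl_cont hes hec hcv k)).sub h1).sub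
      (hcF k)
  -- the basic inequality
  set β : ℝ → ℝ := fun t => 576 / ν * n0 μ B (v (cl T t)) ^ 2 with hβ
  have hβc : Continuous β := continuous_const.mul ((n0_cont hcv).pow 2)
  have hyc : Continuous fun t => nm μ B (e t) := nm_cont hec
  have hYc : Continuous fun t => n1 μ B (e t) := n1_cont hec
  have basic : ∀ t, 0 ≤ t → t ≤ T → nm μ B (e t) + 2 * Real.pi ^ 2 * ν *
      ∫ s in (0 : ℝ)..t, n1 μ B (e s) ≤ η + ∫ s in (0 : ℝ)..t, β s * nm μ B (e s) := by
    intro t ht htT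
    have h1 : ∀ k ∈ B, ‖e t k‖ + lam ν k * ∫ s in (0 : ℝ)..t, ‖e s k‖
        ≤ ∫ s in (0 : ℝ)..t, ‖G s k‖ := by
      intro k hk
      have hl : 0 ≤ lam ν k := by
        rw [lam]
        have := sq_nonneg' k
        positivity
      have h2 := damped (y := fun s => e s k) (G := fun s => G s k) (l := lam ν k) (s := 0)
        (t := t) hl ht (hec k).continuousOn (hGc k).continuousOn
        (fun r _ => by rw [← hGe r k]; exact hder r k hk)
      simpa [he0] using h2
    have h2 : nm μ B (e t) + 4 * Real.pi ^ 2 * ν * ∫ s in (0 : ℝ)..t, n1 μ B (e s)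
        ≤ ∫ s in (0 : ℝ)..t, nm μ B (G s) := by
      have e1 : ∫ s in (0 : ℝ)..t, n1 μ B (e s)
          = ∑ k ∈ B, len k * (Real.exp (μ * len k) * ∫ s in (0 : ℝ)..t, ‖e s k‖) := by
        simp only [n1]
        rw [intervalIntegral.integral_finsetSum]
        · refine Finset.sum_congr rfl fun k _ => ?_
          rw [intervalIntegral.integral_const_mul, intervalIntegral.integral_const_mul]
        · exact fun k _ => (continuous_const.mul (continuous_const.mul
            (hec k).norm)).intervalIntegrable _ _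
      have e2 : ∫ s in (0 : ℝ)..t, nm μ B (G s)
          = ∑ k ∈ B, Real.exp (μ * len k) / len k * ∫ s in (0 : ℝ)..t, ‖G s k‖ := by
        simp only [nm]
        rw [intervalIntegral.integral_finsetSum]
        · refine Finset.sum_congr rfl fun k _ => ?_
          rw [← intervalIntegral.integral_const_mul]
          congr 1
          funext s
          ring
        · exact fun k _ => ((continuous_const.mul (hGc k).norm).div_const _).intervalIntegrable _ _
      rw [e1, e2, nm, Finset.mul_sum, ← Finset.sum_add_distrib]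
      refine Finset.sum_le_sum fun k hk => ?_
      have hk0 : 0 < len k := len_pos fun h => hB (h ▸ hk)
      have h3 := mul_le_mul_of_nonneg_left (h1 k hk)
        (div_nonneg (Real.exp_pos (μ * len k)).le hk0.le)
      refine le_trans (le_of_eq ?_) h3
      rw [lam, ← len_sq]
      field_simp
    have h3 : ∫ s in (0 : ℝ)..t, nm μ B (G s)
        ≤ ∫ s in (0 : ℝ)..t, (β s * nm μ B (e s) + 2 * Real.pi ^ 2 * ν * n1 μ B (e s) + g s) := by
      refine intervalIntegral.integral_mono_on ht ((nm_cont hGc).intervalIntegrable _ _) ?_ ?_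
      · exact (((hβc.mul hyc).add (continuous_const.mul hYc)).add hg).intervalIntegrable _ _
      · intro s hs
        have hsT : s ∈ Icc 0 T := ⟨hs.1, hs.2.trans htT⟩
        have h4 := nm_force_le (F := F (cl T s)) hν hμ hB (hvs (cl T s)) (hes s)
        have h5 : nm μ B (F (cl T s)) ≤ g s := by
          rw [cl_of_mem hsT]
          exact hFg s hs.1
        exact h4.trans (by simp only [hβ]; linarith)
    have h4 : ∫ s in (0 : ℝ)..t, (β s * nm μ B (e s) + 2 * Real.pi ^ 2 * ν * n1 μ B (e s) + g s)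
        = (∫ s in (0 : ℝ)..t, β s * nm μ B (e s)) + 2 * Real.pi ^ 2 * ν *
          (∫ s in (0 : ℝ)..t, n1 μ B (e s)) + ∫ s in (0 : ℝ)..t, g s := by
      have i1 : IntervalIntegrable (fun s => β s * nm μ B (e s)) volume 0 t :=
        (hβc.mul hyc).intervalIntegrable _ _
      have i2 : IntervalIntegrable (fun s => 2 * Real.pi ^ 2 * ν * n1 μ B (e s)) volume 0 t :=
        (continuous_const.mul hYc).intervalIntegrable _ _
      rw [intervalIntegral.integral_add (i1.add i2) (hg.intervalIntegrable _ _),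
        intervalIntegral.integral_add i1 i2, intervalIntegral.integral_const_mul]
    have h5 := hgη t ht
    linarith
  -- Gronwall
  have hβ0 : ∀ t, 0 ≤ t → 0 ≤ β t := fun t _ => by simp only [hβ]; positivity
  have hη0 : 0 ≤ η := by simpa using hgη 0 le_rfl
  have hY0 : ∀ t, 0 ≤ t → 0 ≤ ∫ s in (0 : ℝ)..t, n1 μ B (e s) := fun t ht =>
    intervalIntegral.integral_nonneg ht fun s _ => n1_nonneg
  have hgr := gronwall (y := fun t => nm μ B (e t)) (b := β) (c := η) (T := T) hyc hβc hβ0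
    (fun t ht htT => by
      have h1 := basic t ht htT
      have h2 := mul_nonneg (by positivity : (0 : ℝ) ≤ 2 * Real.pi ^ 2 * ν) (hY0 t ht)
      linarith)
  have hbd : ∀ t ∈ Icc 0 T, nm μ B (e t) + 2 * Real.pi ^ 2 * ν *
      ∫ s in (0 : ℝ)..t, n1 μ B (e s) ≤ η * Real.exp (576 * K / ν) := by
    intro t ht
    refine (basic t ht.1 ht.2).trans ((hgr t ht.1 ht.2).trans ?_)
    refine mul_le_mul_of_nonneg_left (Real.exp_le_exp.mpr ?_) hη0
    have h1 : ∫ s in (0 : ℝ)..t, β s = 576 / ν * ∫ s in (0 : ℝ)..t, n0 μ B (v s) ^ 2 := by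
      rw [← intervalIntegral.integral_const_mul]
      refine intervalIntegral.integral_congr fun s hs => ?_
      rw [uIcc_of_le ht.1] at hs
      simp only [hβ]
      rw [cl_of_mem ⟨hs.1, hs.2.trans ht.2⟩]
    rw [h1]
    calc 576 / ν * ∫ s in (0 : ℝ)..t, n0 μ B (v s) ^ 2 ≤ 576 / ν * K :=
          mul_le_mul_of_nonneg_left (hvK t ht.1) (by positivity)
      _ = 576 * K / ν := by ring
  refine ⟨e, hes, he0, heh, hed, hec, hbd, fun t ht k hk => ?_⟩
  have h1 := hder t k hk
  have h2 : nm μ B (e t) ≤ R := by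
    have h3 := hbd t ht
    have h4 := mul_nonneg (by positivity : (0 : ℝ) ≤ 2 * Real.pi ^ 2 * ν) (hY0 t ht.1)
    linarith
  rw [vfl, rho_of_le hR0 h2, cl_of_mem ht] at h1
  exact h1

end Pool.Agent.Run7.h782.GD
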