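import Pool.Agent.Run7.h782.GD.Lim

/-!
The limit of the Galerkin approximations.
-/

set_option autoImplicit false

open MeasureTheory Set Filter Topology
open scoped ContDiff ComplexConjugate NNReal

namespace Pool.Agent.Run7.h782.GD

open H459R3.NS

/-- The right hand side of the error equation. -/
noncomputable def gf (ν : ℝ) (v F e : Cf) (k : K3) : C3 :=
  -((lam ν k : ℂ) • e k) - nl v e k - nl e v k - nl e e k - F k

theorem lam_nonneg {ν : ℝ} (hν : 0 ≤ ν) (k : K3) : 0 ≤ lam ν k := by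
  rw [lam]
  have := sq_nonneg' k
  positivity

theorem gf_bound {ν : ℝ} (hν : 0 ≤ ν) {v F e : Cf} {k : K3} {V S D f : ℝ} (hv : L1 v) (he : L1 e)
    (hV : ∑' p, ‖v p‖ ≤ V) (hS : ∑' p, ‖e p‖ ≤ S) (hD : ‖e k‖ ≤ D) (hF : ‖F k‖ ≤ f) :
    ‖gf ν v F e k‖ ≤ lam ν k * D + 48 * Real.pi * len k * (V * S)
      + 24 * Real.pi * len k * (S * S) + f := by
  have hl := len_nonneg k
  have hpi := Real.pi_pos
  have n1' : (0 : ℝ) ≤ ∑' p, ‖v p‖ := tsum_nonneg fun _ => norm_nonneg _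
  have n2' : (0 : ℝ) ≤ ∑' p, ‖e p‖ := tsum_nonneg fun _ => norm_nonneg _
  have h1 : ‖nl v e k‖ ≤ 24 * Real.pi * len k * (V * S) :=
    (norm_nl_le_N hv he k).trans (mul_le_mul_of_nonneg_left
      (mul_le_mul hV hS n2' (n1'.trans hV)) (by positivity))
  have h2 : ‖nl e v k‖ ≤ 24 * Real.pi * len k * (S * V) :=
    (norm_nl_le_N he hv k).trans (mul_le_mul_of_nonneg_left
      (mul_le_mul hS hV n1' (n2'.trans hS)) (by positivity))
  have h3 : ‖nl e e k‖ ≤ 24 * Real.pi * len k * (S * S) :=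
    (norm_nl_le_N he he k).trans (mul_le_mul_of_nonneg_left
      (mul_le_mul hS hS n2' (n2'.trans hS)) (by positivity))
  have h0 : ‖-((lam ν k : ℂ) • e k)‖ ≤ lam ν k * D := by
    rw [norm_neg, norm_smul, Complex.norm_real, Real.norm_eq_abs, abs_of_nonneg (lam_nonneg hν k)]
    exact mul_le_mul_of_nonneg_left hD (lam_nonneg hν k)
  have h4 : ‖gf ν v F e k‖ ≤ ‖-((lam ν k : ℂ) • e k)‖ + ‖nl v e k‖ + ‖nl e v k‖ + ‖nl e e k‖
      + ‖F k‖ := by
    unfold gf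
    refine (norm_sub_le _ _).trans (add_le_add ?_ le_rfl)
    refine (norm_sub_le _ _).trans (add_le_add ?_ le_rfl)
    refine (norm_sub_le _ _).trans (add_le_add ?_ le_rfl)
    exact norm_sub_le _ _
  have e1 : 24 * Real.pi * len k * (S * V) = 24 * Real.pi * len k * (V * S) := by ring
  rw [e1] at h2
  linarith

theorem gf_sub_bound {ν : ℝ} (hν : 0 ≤ ν) {v F e E : Cf} {k : K3} {V S d : ℝ} (hv : L1 v)
    (he : L1 e) (hE : L1 E) (hV : ∑' p, ‖v p‖ ≤ V) (hS : ∑' p, ‖e p‖ ≤ S)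
    (hS' : ∑' p, ‖E p‖ ≤ S) (hd : ∑' p, ‖e p - E p‖ ≤ d) :
    ‖gf ν v F e k - gf ν v F E k‖ ≤ (lam ν k + 48 * Real.pi * len k * (V + S)) * d := by
  have hl := len_nonneg k
  have hpi := Real.pi_pos
  have hs : L1 (e - E) := he.sub hE
  have hd' : ∑' p, ‖(e - E) p‖ ≤ d := hd
  have n1' : (0 : ℝ) ≤ ∑' p, ‖v p‖ := tsum_nonneg fun _ => norm_nonneg _
  have n2' : (0 : ℝ) ≤ ∑' p, ‖e p‖ := tsum_nonneg fun _ => norm_nonneg _
  have n3' : (0 : ℝ) ≤ ∑' p, ‖E p‖ := tsum_nonneg fun _ => norm_nonneg _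
  have n4' : (0 : ℝ) ≤ ∑' p, ‖(e - E) p‖ := tsum_nonneg fun _ => norm_nonneg _
  have e1 : gf ν v F e k - gf ν v F E k = -((lam ν k : ℂ) • (e - E) k) - nl v (e - E) k
      - nl (e - E) v k - nl (e - E) e k - nl E (e - E) k := by
    rw [nl_sub_right hv he hE, nl_sub_left he hE hv, nl_sub_left he hE he, nl_sub_right hE he hE]
    simp only [gf, Pi.sub_apply, smul_sub]
    abel
  have h0 : ‖-((lam ν k : ℂ) • (e - E) k)‖ ≤ lam ν k * d := by
    rw [norm_neg, norm_smul, Complex.norm_real, Real.norm_eq_abs, abs_of_nonneg (lam_nonneg hν k)]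
    refine mul_le_mul_of_nonneg_left ?_ (lam_nonneg hν k)
    exact (Summable.le_tsum hs k fun _ _ => norm_nonneg _).trans hd'
  have hc : 0 ≤ 24 * Real.pi * len k := by positivity
  have h1 : ‖nl v (e - E) k‖ ≤ 24 * Real.pi * len k * (V * d) :=
    (norm_nl_le_N hv hs k).trans (mul_le_mul_of_nonneg_left
      (mul_le_mul hV hd' n4' (n1'.trans hV)) hc)
  have h2 : ‖nl (e - E) v k‖ ≤ 24 * Real.pi * len k * (d * V) :=
    (norm_nl_le_N hs hv k).trans (mul_le_mul_of_nonneg_left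
      (mul_le_mul hd' hV n1' (n4'.trans hd')) hc)
  have h3 : ‖nl (e - E) e k‖ ≤ 24 * Real.pi * len k * (d * S) :=
    (norm_nl_le_N hs he k).trans (mul_le_mul_of_nonneg_left
      (mul_le_mul hd' hS n2' (n4'.trans hd')) hc)
  have h4 : ‖nl E (e - E) k‖ ≤ 24 * Real.pi * len k * (S * d) :=
    (norm_nl_le_N hE hs k).trans (mul_le_mul_of_nonneg_left
      (mul_le_mul hS' hd' n4' (n3'.trans hS')) hc)
  rw [e1]
  calc ‖-((lam ν k : ℂ) • (e - E) k) - nl v (e - E) k - nl (e - E) v k - nl (e - E) e k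
        - nl E (e - E) k‖
      ≤ ‖-((lam ν k : ℂ) • (e - E) k)‖ + ‖nl v (e - E) k‖ + ‖nl (e - E) v k‖
        + ‖nl (e - E) e k‖ + ‖nl E (e - E) k‖ := by
        refine (norm_sub_le _ _).trans (add_le_add ?_ le_rfl)
        refine (norm_sub_le _ _).trans (add_le_add ?_ le_rfl)
        refine (norm_sub_le _ _).trans (add_le_add ?_ le_rfl)
        exact norm_sub_le _ _
    _ ≤ lam ν k * d + 24 * Real.pi * len k * (V * d) + 24 * Real.pi * len k * (d * V)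
        + 24 * Real.pi * len k * (d * S) + 24 * Real.pi * len k * (S * d) := by linarith
    _ = _ := by ring

/-- The Galerkin approximations of the error. -/
structure GalF (ν μ ε : ℝ) (B : Finset K3) (Bn : ℕ → Finset K3) (v F : ℝ → Cf)
    (e : ℕ → ℝ → Cf) : Prop where
  zero : ∀ n, (0 : K3) ∉ Bn n
  sub : ∀ n, B ⊆ Bn n
  ex : ∀ k : K3, k ≠ 0 → ∀ᶠ n in atTop, k ∈ Bn n
  supp : ∀ n t, ∀ k ∉ Bn n, e n t k = 0
  init : ∀ n, e n 0 = 0
  herm : ∀ n t, Herm (e n t)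
  dv : ∀ n t, Dv (e n t)
  cont : ∀ n k, Continuous fun t => e n t k
  bd : ∀ n : ℕ, ∀ t ∈ Icc (0 : ℝ) n, nm μ (Bn n) (e n t) ≤ ε
  bdi : ∀ n : ℕ, ∀ t ∈ Icc (0 : ℝ) n, 2 * Real.pi ^ 2 * ν * ∫ s in (0 : ℝ)..t, n1 μ (Bn n) (e n s) ≤ ε
  der : ∀ n : ℕ, ∀ t ∈ Icc (0 : ℝ) n, ∀ k ∈ Bn n,
    HasDerivAt (fun s => e n s k) (gf ν (v t) (F t) (e n t) k) t

section lim

variable {ν μ ε : ℝ} {B : Finset K3} {Bn : ℕ → Finset K3} {v F : ℝ → Cf} {e : ℕ → ℝ → Cf}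

/-- the majorant -/
noncomputable def bk (μ ε : ℝ) (k : K3) : ℝ := ε * (len k * Real.exp (-(μ * len k)))

theorem bk_summable (hμ : 0 < μ) : Summable (bk μ ε) := (summable_len_exp hμ).mul_left ε

theorem GalF.le_bk (G : GalF ν μ ε B Bn v F e) (hε : 0 ≤ ε) {n : ℕ} {t : ℝ}
    (ht : t ∈ Icc (0 : ℝ) n) (k : K3) : ‖e n t k‖ ≤ bk μ ε k := by
  by_cases hk : k ∈ Bn n
  · have hk0 : 0 < len k := len_pos fun h => G.zero n (h ▸ hk)
    have h1 : Real.exp (μ * len k) * ‖e n t k‖ / len k ≤ ε :=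
      (Finset.single_le_sum (f := fun k => Real.exp (μ * len k) * ‖e n t k‖ / len k)
        (fun k _ => div_nonneg (by positivity) (len_nonneg k)) hk).trans (G.bd n t ht)
    rw [div_le_iff₀ hk0] at h1
    have h2 := mul_le_mul_of_nonneg_right h1 (Real.exp_pos (-(μ * len k))).le
    have h3 : Real.exp (μ * len k) * ‖e n t k‖ * Real.exp (-(μ * len k)) = ‖e n t k‖ := by
      rw [mul_comm (Real.exp _), mul_assoc, ← Real.exp_add, add_neg_cancel, Real.exp_zero, mul_one]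
    rw [h3] at h2
    rw [bk, ← mul_assoc]
    exact h2
  · rw [G.supp n t k hk, norm_zero, bk]
    have := len_nonneg k
    positivity

theorem GalF.l1 (G : GalF ν μ ε B Bn v F e) (n : ℕ) (t : ℝ) : L1 (e n t) :=
  L1.of_supp (G.supp n t)

/-- Equi-Lipschitz continuity. -/
theorem GalF.lip (hν : 0 ≤ ν) (hμ : 0 < μ) (hε : 0 ≤ ε) (G : GalF ν μ ε B Bn v F e)
    (hvs : ∀ t, ∀ k ∉ B, v t k = 0) {T V f : ℝ}
    (hV : ∀ t ∈ Icc 0 T, ∑' p, ‖v t p‖ ≤ V) (k : K3) (hf : ∀ t ∈ Icc 0 T, ‖F t k‖ ≤ f)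
    (hf0 : 0 ≤ f) (hV0 : 0 ≤ V) :
    ∃ L : ℝ, 0 ≤ L ∧ ∀ n : ℕ, T ≤ n → ∀ s ∈ Icc 0 T, ∀ t ∈ Icc 0 T,
      ‖e n s k - e n t k‖ ≤ L * |s - t| := by
  have hS0 : 0 ≤ ∑' k, bk μ ε k := tsum_nonneg fun k => by
    rw [bk]
    have := len_nonneg k
    positivity
  have hl := len_nonneg k
  have hbk : 0 ≤ bk μ ε k := by rw [bk]; positivity
  have hlam := lam_nonneg hν k
  refine ⟨lam ν k * bk μ ε k + 48 * Real.pi * len k * (V * ∑' k, bk μ ε k)
      + 24 * Real.pi * len k * ((∑' k, bk μ ε k) * ∑' k, bk μ ε k) + f, by positivity, ?_⟩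
  intro n hn s hs t ht
  by_cases hk : k ∈ Bn n
  · have h1 := Convex.norm_image_sub_le_of_norm_hasDerivWithin_le (f := fun r => e n r k)
      (f' := fun r => gf ν (v r) (F r) (e n r) k) (s := Icc 0 T) (x := t) (y := s)
      (fun r hr => (G.der n r ⟨hr.1, hr.2.trans hn⟩ k hk).hasDerivWithinAt)
      (fun r hr => gf_bound hν (L1.of_supp (hvs r)) (G.l1 n r) (hV r hr)
        ((G.l1 n r).tsum_le_tsum (fun k => G.le_bk hε ⟨hr.1, hr.2.trans hn⟩ k) (bk_summable hμ))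
        (G.le_bk hε ⟨hr.1, hr.2.trans hn⟩ k) (hf r hr)) (convex_Icc 0 T) ht hs
    rw [Real.norm_eq_abs] at h1
    exact h1
  · rw [G.supp n s k hk, G.supp n t k hk, sub_zero, norm_zero]
    positivity

end lim

end Pool.Agent.Run7.h782.GD
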