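import Pool.Agent.Run7.h782.GD.Lim2

/-!
The limit of the Galerkin approximations: the limit function.
-/

set_option autoImplicit false

open MeasureTheory Set Filter Topology
open scoped ContDiff ComplexConjugate NNReal

namespace Pool.Agent.Run7.h782.GD

open H459R3.NS

variable {ν μ ε : ℝ} {B : Finset K3} {Bn : ℕ → Finset K3} {v F : ℝ → Cf} {e : ℕ → ℝ → Cf}

/-- The ultrafilter. -/
noncomputable def UU : Ultrafilter ℕ := Filter.hyperfilter ℕ

theorem UU_le : (UU : Filter ℕ) ≤ atTop := Nat.hyperfilter_le_atTop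

theorem GalF.exists_lim (G : GalF ν μ ε B Bn v F e) (hε : 0 ≤ ε) :
    ∃ E : ℝ → Cf, ∀ t, 0 ≤ t → ∀ k, Tendsto (fun n => e n t k) UU (𝓝 (E t k)) := by
  have h : ∀ (t : ℝ) (k : K3), ∃ z : C3, 0 ≤ t → Tendsto (fun n => e n t k) UU (𝓝 z) := by
    intro t k
    by_cases ht : 0 ≤ t
    · have h1 : ∀ᶠ n in (UU : Filter ℕ), e n t k ∈ Metric.closedBall (0 : C3) (bk μ ε k) := by
        obtain ⟨N, hN⟩ := exists_nat_ge t
        have h2 : ∀ᶠ n : ℕ in atTop, N ≤ n := eventually_ge_atTop N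
        filter_upwards [UU_le h2] with n hn
        rw [mem_closedBall_zero_iff]
        exact G.le_bk hε ⟨ht, hN.trans (by exact_mod_cast hn)⟩ k
      obtain ⟨z, _, hz⟩ := (isCompact_closedBall (0 : C3) (bk μ ε k)).ultrafilter_le_nhds
        (UU.map fun n => e n t k) (by
          rw [le_principal_iff]
          exact h1)
      exact ⟨z, fun _ => hz⟩
    · exact ⟨0, fun h => absurd h ht⟩
  choose z hz using h
  exact ⟨fun t k => z t k, fun t ht k => hz t k ht⟩

/-- Data of the limit passage on `[0,T]`. -/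
structure LimD (ν μ ε : ℝ) (B : Finset K3) (Bn : ℕ → Finset K3) (v F : ℝ → Cf)
    (e : ℕ → ℝ → Cf) (E : ℝ → Cf) : Prop where
  hν : 0 < ν
  hμ : 0 < μ
  hε : 0 ≤ ε
  vs : ∀ t, ∀ k ∉ B, v t k = 0
  vc : ∀ k, ContinuousOn (fun t => v t k) (Ici 0)
  Fc : ∀ k, ContinuousOn (fun t => F t k) (Ici 0)
  G : GalF ν μ ε B Bn v F e
  lim : ∀ t, 0 ≤ t → ∀ k, Tendsto (fun n => e n t k) UU (𝓝 (E t k))

namespace LimD

variable {E : ℝ → Cf}

theorem le_bk (D : LimD ν μ ε B Bn v F e E) {t : ℝ} (ht : 0 ≤ t) (k : K3) :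
    ‖E t k‖ ≤ bk μ ε k := by
  obtain ⟨N, hN⟩ := exists_nat_ge t
  refine le_of_tendsto (D.lim t ht k).norm ?_
  have h2 : ∀ᶠ n : ℕ in atTop, N ≤ n := eventually_ge_atTop N
  filter_upwards [UU_le h2] with n hn
  exact D.G.le_bk D.hε ⟨ht, hN.trans (by exact_mod_cast hn)⟩ k

theorem l1 (D : LimD ν μ ε B Bn v F e E) {t : ℝ} (ht : 0 ≤ t) : L1 (E t) :=
  Summable.of_nonneg_of_le (fun _ => norm_nonneg _) (fun k => D.le_bk ht k) (bk_summable D.hμ)

theorem vl1 (D : LimD ν μ ε B Bn v F e E) (t : ℝ) : L1 (v t) := L1.of_supp (D.vs t)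

theorem bounds (D : LimD ν μ ε B Bn v F e E) (T : ℝ) :
    ∃ V : ℝ, 0 ≤ V ∧ (∀ t ∈ Icc 0 T, ∑' p, ‖v t p‖ ≤ V) ∧
      ∀ k, ∃ f : ℝ, 0 ≤ f ∧ ∀ t ∈ Icc 0 T, ‖F t k‖ ≤ f := by
  have hc : ContinuousOn (fun t => ∑ p ∈ B, ‖v t p‖) (Icc 0 T) :=
    continuousOn_finsetSum _ fun p _ => ((D.vc p).mono Icc_subset_Ici_self).norm
  obtain ⟨V, hV⟩ := (isCompact_Icc (a := (0 : ℝ)) (b := T)).exists_bound_of_continuousOn hc
  refine ⟨max V 0, le_max_right _ _, fun t ht => ?_, fun k => ?_⟩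
  · rw [tsum_eq_sum (s := B) fun p hp => by rw [D.vs t p hp, norm_zero]]
    exact (le_abs_self _).trans ((hV t ht).trans (le_max_left _ _))
  · obtain ⟨f, hf⟩ := (isCompact_Icc (a := (0 : ℝ)) (b := T)).exists_bound_of_continuousOn
      (((D.Fc k).mono Icc_subset_Ici_self))
    exact ⟨max f 0, le_max_right _ _, fun t ht => (hf t ht).trans (le_max_left _ _)⟩

/-- Uniform convergence of the coefficients on `[0,T]`. -/
theorem unif_coef (D : LimD ν μ ε B Bn v F e E) (T : ℝ) (k : K3) :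
    (∀ ε' : ℝ, 0 < ε' → ∀ᶠ n in (UU : Filter ℕ), ∀ t ∈ Icc 0 T, ‖e n t k - E t k‖ ≤ ε') ∧
      ContinuousOn (fun t => E t k) (Icc 0 T) := by
  classical
  obtain ⟨V, hV0, hV, hF⟩ := D.bounds T
  obtain ⟨f, hf0, hf⟩ := hF k
  obtain ⟨L, hL0, hL⟩ := D.G.lip D.hν.le D.hμ D.hε D.vs hV k hf hf0 hV0
  have hev : ∀ᶠ n : ℕ in (UU : Filter ℕ), T ≤ n := by
    obtain ⟨N, hN⟩ := exists_nat_ge T
    have h2 : ∀ᶠ n : ℕ in atTop, N ≤ n := eventually_ge_atTop N
    filter_upwards [UU_le h2] with n hn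
    exact hN.trans (by exact_mod_cast hn)
  have h := H772R2.NSR.unif (F := (UU : Filter ℕ)) (T := T)
    (f := fun n t => if T ≤ (n : ℝ) then e n t k else 0) (g := fun t => E t k) ?_ ?_
  · refine ⟨fun ε' hε' => ?_, h.2⟩
    filter_upwards [h.1 ε' hε', hev] with n hn hn2 t ht
    have := hn t ht
    rwa [if_pos hn2] at this
  · intro ε' hε'
    refine ⟨ε' / (L + 1), by positivity, fun n a ha b hb hab => ?_⟩
    by_cases hn : T ≤ (n : ℝ)
    · simp only [if_pos hn]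
      refine (hL n hn a ha b hb).trans ?_
      have h1 : L * |a - b| ≤ (L + 1) * (ε' / (L + 1)) :=
        mul_le_mul (by linarith) hab.le (abs_nonneg _) (by linarith)
      rwa [mul_div_cancel₀ _ (by linarith : L + 1 ≠ 0)] at h1
    · simp only [if_neg hn, sub_zero, norm_zero]
      exact hε'.le
  · intro t ht
    refine (D.lim t ht.1 k).congr' ?_
    filter_upwards [hev] with n hn
    rw [if_pos hn]

theorem cont (D : LimD ν μ ε B Bn v F e E) (k : K3) : ContinuousOn (fun t => E t k) (Ici 0) := by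
  intro t ht
  have h1 : ContinuousWithinAt (fun t => E t k) (Icc 0 (t + 1)) t :=
    (D.unif_coef (t + 1) k).2 t ⟨ht, by linarith⟩
  refine h1.mono_of_mem_nhdsWithin ?_
  have : Ici (0 : ℝ) ∩ Iio (t + 1) ⊆ Icc 0 (t + 1) := fun s hs => ⟨hs.1, hs.2.le⟩
  exact mem_of_superset (inter_mem self_mem_nhdsWithin
    (mem_nhdsWithin_of_mem_nhds (Iio_mem_nhds (by linarith)))) this

theorem ev_ge (T : ℝ) : ∀ᶠ n : ℕ in (UU : Filter ℕ), T ≤ n := by
  obtain ⟨N, hN⟩ := exists_nat_ge T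
  have h2 : ∀ᶠ n : ℕ in atTop, N ≤ n := eventually_ge_atTop N
  filter_upwards [UU_le h2] with n hn
  exact hN.trans (by exact_mod_cast hn)

/-- Uniform convergence in the sum norm. -/
theorem unif_sum (D : LimD ν μ ε B Bn v F e E) (T : ℝ) : ∀ ε' : ℝ, 0 < ε' →
    ∀ᶠ n in (UU : Filter ℕ), ∀ t ∈ Icc 0 T, ∑' k, ‖e n t k - E t k‖ ≤ ε' := by
  intro ε' hε'
  have h := unif_N (a := e) (E := E) (b := bk μ ε) (U := (UU : Filter ℕ)) (T := T)
    (bk_summable D.hμ) (by
      filter_upwards [ev_ge T] with n hn t ht k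
      exact D.G.le_bk D.hε ⟨ht.1, ht.2.trans hn⟩ k) (fun t ht k => D.le_bk ht.1 k)
    (fun k => (D.unif_coef T k).1) ε' hε'
  filter_upwards [h] with n hn t ht
  exact (hn t ht).2

/-- Uniform convergence of the right hand sides. -/
theorem unif_gf (D : LimD ν μ ε B Bn v F e E) (T : ℝ) (k : K3) : ∀ ε' : ℝ, 0 < ε' →
    ∀ᶠ n in (UU : Filter ℕ), ∀ t ∈ Icc 0 T,
      ‖gf ν (v t) (F t) (e n t) k - gf ν (v t) (F t) (E t) k‖ ≤ ε' := by
  intro ε' hε'
  obtain ⟨V, hV0, hV, -⟩ := D.bounds T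
  set S : ℝ := ∑' k, bk μ ε k with hS
  have hS0 : 0 ≤ S := tsum_nonneg fun k => by
    rw [bk]
    have := len_nonneg k
    have := D.hε
    positivity
  set C : ℝ := lam ν k + 48 * Real.pi * len k * (V + S) with hC
  have hC0 : 0 ≤ C := by
    have := lam_nonneg D.hν.le k
    have := len_nonneg k
    have := Real.pi_pos
    positivity
  filter_upwards [D.unif_sum T (ε' / (C + 1)) (by positivity), ev_ge T] with n hn hnT t ht
  have h1 := gf_sub_bound (F := F t) (k := k) D.hν.le (D.vl1 t) (D.G.l1 n t) (D.l1 ht.1) (hV t ht)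
    ((D.G.l1 n t).tsum_le_tsum (fun k => D.G.le_bk D.hε ⟨ht.1, ht.2.trans hnT⟩ k)
      (bk_summable D.hμ))
    ((D.l1 ht.1).tsum_le_tsum (fun k => D.le_bk ht.1 k) (bk_summable D.hμ)) (hn t ht)
  refine h1.trans ?_
  have h2 : C * (ε' / (C + 1)) ≤ (C + 1) * (ε' / (C + 1)) :=
    mul_le_mul_of_nonneg_right (by linarith) (by positivity)
  rwa [mul_div_cancel₀ _ (by linarith : C + 1 ≠ 0)] at h2

/-- The clamped right hand sides are continuous. -/
theorem gf_cont (D : LimD ν μ ε B Bn v F e E) (T : ℝ) (n : ℕ) (k : K3) :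
    Continuous fun t => gf ν (v (cl T t)) (F (cl T t)) (e n t) k := by
  have hcv : ∀ k, Continuous fun t => v (cl T t) k := fun k =>
    (D.vc k).comp_continuous (cl_cont T) fun t => cl_nonneg T t
  have hcF : ∀ k, Continuous fun t => F (cl T t) k := fun k =>
    (D.Fc k).comp_continuous (cl_cont T) fun t => cl_nonneg T t
  have h0 : Continuous fun t => (lam ν k : ℂ) • e n t k := (D.G.cont n k).const_smul (lam ν k : ℂ)
  exact (((h0.neg.sub (nl_cont (fun t => D.vs _) hcv (D.G.cont n) k)).sub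
    (nl_cont (fun t => D.G.supp n t) (D.G.cont n) hcv k)).sub
    (nl_cont (fun t => D.G.supp n t) (D.G.cont n) (D.G.cont n) k)).sub (hcF k)

theorem gf_contOn (D : LimD ν μ ε B Bn v F e E) (T : ℝ) (k : K3) :
    ContinuousOn (fun t => gf ν (v t) (F t) (E t) k) (Icc 0 T) := by
  have h : TendstoUniformlyOn (fun n t => gf ν (v t) (F t) (e n t) k)
      (fun t => gf ν (v t) (F t) (E t) k) (UU : Filter ℕ) (Icc 0 T) := by
    rw [Metric.tendstoUniformlyOn_iff]
    intro ε' hε'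
    filter_upwards [D.unif_gf T k (ε' / 2) (by positivity)] with n hn t ht
    rw [dist_comm, dist_eq_norm]
    linarith [hn t ht]
  refine h.continuousOn (Frequently.of_forall fun n => ?_)
  refine (D.gf_cont T n k).continuousOn.congr fun t ht => ?_
  simp only [cl_of_mem ht]

/-- The integral equation of the limit. -/
theorem integral_eq (D : LimD ν μ ε B Bn v F e E) {T t : ℝ} (ht : t ∈ Icc 0 T) {k : K3}
    (hk : k ≠ 0) : E t k = ∫ s in (0 : ℝ)..t, gf ν (v s) (F s) (E s) k := by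
  have hsub : Icc 0 t ⊆ Icc 0 T := Icc_subset_Icc_right ht.2
  have hEi : IntervalIntegrable (fun s => gf ν (v s) (F s) (E s) k) volume 0 t := by
    refine ContinuousOn.intervalIntegrable ?_
    rw [uIcc_of_le ht.1]
    exact (D.gf_contOn T k).mono hsub
  have hni : ∀ n : ℕ, IntervalIntegrable (fun s => gf ν (v s) (F s) (e n s) k) volume 0 t := by
    intro n
    refine ContinuousOn.intervalIntegrable ?_
    rw [uIcc_of_le ht.1]
    refine (D.gf_cont T n k).continuousOn.congr fun s hs => ?_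
    simp only [cl_of_mem (hsub hs)]
  have hn : ∀ᶠ n in (UU : Filter ℕ), e n t k = ∫ s in (0 : ℝ)..t, gf ν (v s) (F s) (e n s) k := by
    filter_upwards [ev_ge T, UU_le (D.G.ex k hk)] with n hn hkn
    have h1 := intervalIntegral.integral_eq_sub_of_hasDerivAt (a := 0) (b := t)
      (f := fun s => e n s k) (f' := fun s => gf ν (v s) (F s) (e n s) k) (fun s hs => by
        rw [uIcc_of_le ht.1] at hs
        exact D.G.der n s ⟨hs.1, (hs.2.trans ht.2).trans hn⟩ k hkn) (hni n)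
    rw [h1, D.G.init n]
    simp
  by_contra hne
  set d : ℝ := ‖E t k - ∫ s in (0 : ℝ)..t, gf ν (v s) (F s) (E s) k‖ with hd
  have hd0 : 0 < d := norm_pos_iff.mpr (sub_ne_zero.mpr hne)
  have hT0 : 0 ≤ t := ht.1
  obtain ⟨n, h1, h2, h3⟩ := (hn.and ((D.unif_gf T k (d / (4 * (t + 1))) (by positivity)).and
    ((D.unif_coef T k).1 (d / 4) (by positivity)))).exists
  have h4 : ‖∫ s in (0 : ℝ)..t, (gf ν (v s) (F s) (e n s) k - gf ν (v s) (F s) (E s) k)‖
      ≤ d / (4 * (t + 1)) * |t - 0| := by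
    refine intervalIntegral.norm_integral_le_of_norm_le_const fun s hs => ?_
    rw [uIoc_of_le ht.1] at hs
    exact h2 s ⟨hs.1.le, hs.2.trans ht.2⟩
  rw [intervalIntegral.integral_sub (hni n) hEi, ← h1, sub_zero, abs_of_nonneg hT0] at h4
  have h5 : d / (4 * (t + 1)) * t ≤ d / 4 := by
    rw [div_mul_eq_mul_div, div_le_div_iff₀ (by positivity) (by norm_num)]
    nlinarith
  have h6 := h3 t ht
  have h7 : d ≤ ‖e n t k - E t k‖ + ‖e n t k - ∫ s in (0 : ℝ)..t, gf ν (v s) (F s) (E s) k‖ := by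
    rw [hd]
    calc ‖E t k - ∫ s in (0 : ℝ)..t, gf ν (v s) (F s) (E s) k‖
        = ‖-(e n t k - E t k) + (e n t k - ∫ s in (0 : ℝ)..t, gf ν (v s) (F s) (E s) k)‖ := by
          congr 1; abel
      _ ≤ _ := by
          refine (norm_add_le _ _).trans ?_
          rw [norm_neg]
  linarith

theorem zero_mode (D : LimD ν μ ε B Bn v F e E) {t : ℝ} (ht : 0 ≤ t) : E t 0 = 0 := by
  refine tendsto_nhds_unique (D.lim t ht 0) ?_
  refine (tendsto_const_nhds (x := (0 : C3))).congr fun n => ?_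
  rw [D.G.supp n t 0 (D.G.zero n)]

theorem init (D : LimD ν μ ε B Bn v F e E) : E 0 = 0 := by
  funext k
  refine tendsto_nhds_unique (D.lim 0 le_rfl k) ?_
  refine (tendsto_const_nhds (x := (0 : C3))).congr fun n => ?_
  rw [D.G.init n]
  rfl

theorem herm (D : LimD ν μ ε B Bn v F e E) {t : ℝ} (ht : 0 ≤ t) : Herm (E t) := by
  intro k i
  have h1 : Tendsto (fun n => e n t (-k) i) UU (𝓝 (E t (-k) i)) :=
    (tendsto_pi_nhds.mp (D.lim t ht (-k))) i
  have h2 : Tendsto (fun n => conj (e n t k i)) UU (𝓝 (conj (E t k i))) :=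
    (Complex.continuous_conj.tendsto _).comp ((tendsto_pi_nhds.mp (D.lim t ht k)) i)
  exact tendsto_nhds_unique h1 (h2.congr fun n => (D.G.herm n t k i).symm)

theorem kd_continuous (k : K3) : Continuous (kd k) :=
  continuous_finsetSum _ fun j _ => continuous_const.mul (continuous_apply j)

theorem dv (D : LimD ν μ ε B Bn v F e E) {t : ℝ} (ht : 0 ≤ t) : Dv (E t) := by
  intro k
  have h1 : Tendsto (fun n => kd k (e n t k)) UU (𝓝 (kd k (E t k))) :=
    ((kd_continuous k).tendsto _).comp (D.lim t ht k)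
  refine tendsto_nhds_unique h1 ?_
  refine (tendsto_const_nhds (x := (0 : ℂ))).congr fun n => (D.G.dv n t k).symm

theorem deriv (D : LimD ν μ ε B Bn v F e E) {t : ℝ} (ht : 0 ≤ t) (hF0 : ∀ t, 0 ≤ t → F t 0 = 0)
    (k : K3) : HasDerivWithinAt (fun s => E s k) (gf ν (v t) (F t) (E t) k) (Ici 0) t := by
  by_cases hk : k = 0
  · subst hk
    have h1 : gf ν (v t) (F t) (E t) 0 = 0 := by
      rw [gf, nl_zero_mode, nl_zero_mode, nl_zero_mode, hF0 t ht, D.zero_mode ht]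
      simp
    rw [h1]
    refine (hasDerivWithinAt_const t (Ici 0) (0 : C3)).congr (fun s hs => D.zero_mode hs)
      (D.zero_mode ht)
  set T : ℝ := t + 1 with hT
  have hT0 : 0 ≤ T := by rw [hT]; linarith
  set g : ℝ → C3 := fun s => gf ν (v (cl T s)) (F (cl T s)) (E (cl T s)) k with hg
  have hgc : Continuous g :=
    (D.gf_contOn T k).comp_continuous (cl_cont T) fun s => cl_mem hT0 s
  have h1 : HasDerivAt (fun s => ∫ r in (0 : ℝ)..s, g r) (g t) t :=
    intervalIntegral.integral_hasDerivAt_right (hgc.intervalIntegrable _ _)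
      (hgc.stronglyMeasurableAtFilter _ _) hgc.continuousAt
  have hgt : g t = gf ν (v t) (F t) (E t) k := by
    simp only [hg]
    rw [cl_of_mem ⟨ht, by rw [hT]; linarith⟩]
  rw [hgt] at h1
  have h2 : ∀ s ∈ Icc 0 T, E s k = ∫ r in (0 : ℝ)..s, g r := by
    intro s hs
    rw [D.integral_eq hs hk]
    refine intervalIntegral.integral_congr fun r hr => ?_
    rw [uIcc_of_le hs.1] at hr
    simp only [hg]
    rw [cl_of_mem ⟨hr.1, hr.2.trans hs.2⟩]
  refine h1.hasDerivWithinAt.congr_of_eventuallyEq ?_ (h2 t ⟨ht, by rw [hT]; linarith⟩)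
  have h3 : ∀ᶠ s in 𝓝[Ici 0] t, s ∈ Icc 0 T := by
    have : Ici (0 : ℝ) ∩ Iio (t + 1) ⊆ Icc 0 T := fun s hs => ⟨hs.1, hs.2.le⟩
    exact mem_of_superset (inter_mem self_mem_nhdsWithin
      (mem_nhdsWithin_of_mem_nhds (Iio_mem_nhds (by linarith)))) this
  filter_upwards [h3] with s hs
  exact h2 s hs

end LimD

end Pool.Agent.Run7.h782.GD
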